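import Pool.Agent.Q171.BW.Env

/-!
# First and second moments of the number of selected descendants at a vertex
-/

open MeasureTheory ProbabilityTheory Filter
open scoped ENNReal

namespace Pool.Agent.Q171.BW

set_option linter.unusedSectionVars false
set_option linter.unusedVariables false

variable {V : Type} {Ω : Type} [mΩ : MeasurableSpace Ω] {ν : Measure Ω} [IsProbabilityMeasure ν]
  [MeasurableSpace V] [DiscreteMeasurableSpace V] [Countable V]

open scoped Classical in
/-- The contribution of one child. -/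
noncomputable def term (a : V → V → Prop) (z x y : V) (c : ℝ≥0∞) : ℝ≥0∞ :=
  if a x y then (if y = z then 1 else 0) + c else 0

/-- The number of strict descendants of `v` (sitting at `x`), at most `n` generations below,
which are at `z` and are reached through allowed moves only. -/
noncomputable def cnt (m : ℕ) (a : ℕ → V → V → Prop) (Y : List ℕ × V → Ω → V) :
    ℕ → V → List ℕ → V → Ω → ℝ≥0∞
  | 0, _, _, _, _ => 0
  | n + 1, z, v, x, ω => ∑ i ∈ Finset.range m,
      term (a n) z x (Y (i :: v, x) ω) (cnt m a Y n z (i :: v) (Y (i :: v, x) ω) ω)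

/-- The mean of `cnt`. -/
noncomputable def mn (m : ℕ) (a : ℕ → V → V → Prop) (P : V → PMF V) : ℕ → V → V → ℝ≥0∞
  | 0, _, _ => 0
  | n + 1, z, x => m * ∑' y, P x y * term (a n) z x y (mn m a P n z y)

open scoped Classical in
/-- The diagonal contribution to the mixed second moment. -/
noncomputable def term2 (a : V → V → Prop) (z₁ z₂ x y : V) (c₁ c₂ c : ℝ≥0∞) : ℝ≥0∞ :=
  if a x y then (if y = z₁ then 1 else 0) * (if y = z₂ then 1 else 0)
    + (if y = z₁ then 1 else 0) * c₂ + (if y = z₂ then 1 else 0) * c₁ + c else 0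

/-- An upper bound for the mixed second moment of `cnt`. -/
noncomputable def sm (m : ℕ) (a : ℕ → V → V → Prop) (P : V → PMF V) :
    ℕ → V → V → V → ℝ≥0∞
  | 0, _, _, _ => 0
  | n + 1, z₁, z₂, x => m * ∑' y, P x y * term2 (a n) z₁ z₂ x y (mn m a P n z₁ y)
      (mn m a P n z₂ y) (sm m a P n z₁ z₂ y)
      + mn m a P (n + 1) z₁ x * mn m a P (n + 1) z₂ x

theorem meas_term {mm : MeasurableSpace Ω} (a : V → V → Prop) (z x y : V) {c : Ω → ℝ≥0∞}
    (hc : Measurable[mm] c) : Measurable[mm] (fun ω => term a z x y (c ω)) := by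
  classical
  unfold term
  split_ifs
  · exact measurable_const.add hc
  · exact measurable_const.add hc
  · exact measurable_const

theorem meas_cnt {m : ℕ} {a : ℕ → V → V → Prop} {P : V → PMF V}
    {Y : List ℕ × V → Ω → V} (h : Good ν P Y) (n : ℕ) (z : V) :
    ∀ (v : List ℕ) (x : V), Measurable[sig Y (Below v)] (cnt m a Y n z v x) := by
  induction n with
  | zero =>
    intro v x
    exact measurable_const
  | succ n ih =>
    intro v x
    refine Finset.measurable_fun_sum _ fun i _ => ?_
    have h1 : Measurable[sig Y (Below v)] (Y (i :: v, x)) := meas_sig (mem_below_cons v i x)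
    refine meas_subst h1 (H := fun y ω => term (a n) z x y (cnt m a Y n z (i :: v) y ω))
      fun y => ?_
    refine meas_term _ _ _ _ ?_
    exact (ih (i :: v) y).mono
      (sig_mono ((below_sub (i :: v)).trans (belowEq_cons_sub v i))) le_rfl

theorem meas_child {m : ℕ} {a : ℕ → V → V → Prop} {P : V → PMF V}
    {Y : List ℕ × V → Ω → V} (h : Good ν P Y) (n : ℕ) (z : V) (u : List ℕ) (x : V) :
    Measurable[sig Y (BelowEq u)]
      (fun ω => term (a n) z x (Y (u, x) ω) (cnt m a Y n z u (Y (u, x) ω) ω)) := by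
  have h1 : Measurable[sig Y (BelowEq u)] (Y (u, x)) := meas_sig (List.suffix_refl u)
  refine meas_subst h1 (H := fun y ω => term (a n) z x y (cnt m a Y n z u y ω)) fun y => ?_
  refine meas_term _ _ _ _ ?_
  exact (meas_cnt h n z u y).mono (sig_mono (below_sub u)) le_rfl

theorem lint_term {a : V → V → Prop} {z x y : V} {c : Ω → ℝ≥0∞} :
    ∫⁻ ω, term a z x y (c ω) ∂ν = term a z x y (∫⁻ ω, c ω ∂ν) := by
  classical
  unfold term
  split_ifs
  · rw [lintegral_add_left measurable_const]
    simp
  · rw [lintegral_add_left measurable_const]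
    simp
  · simp

theorem lint_cnt {m : ℕ} {a : ℕ → V → V → Prop} {P : V → PMF V}
    {Y : List ℕ × V → Ω → V} (h : Good ν P Y) (n : ℕ) (z : V) :
    ∀ (v : List ℕ) (x : V), ∫⁻ ω, cnt m a Y n z v x ω ∂ν = mn m a P n z x := by
  induction n with
  | zero => intro v x; simp [cnt, mn]
  | succ n ih =>
    intro v x
    have h1 : ∀ i ∈ Finset.range m, Measurable
        (fun ω => term (a n) z x (Y (i :: v, x) ω) (cnt m a Y n z (i :: v) (Y (i :: v, x) ω) ω)) :=
      fun i _ => (meas_child h n z (i :: v) x).mono (sig_le h _) le_rfl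
    simp only [cnt, mn]
    rw [lintegral_finsetSum _ h1]
    have h2 : ∀ i ∈ Finset.range m,
        ∫⁻ ω, term (a n) z x (Y (i :: v, x) ω) (cnt m a Y n z (i :: v) (Y (i :: v, x) ω) ω) ∂ν
        = ∑' y, P x y * term (a n) z x y (mn m a P n z y) := by
      intro i _
      rw [fresh h (S := Below (i :: v)) (notMem_below (i :: v) x)
        (H := fun y ω => term (a n) z x y (cnt m a Y n z (i :: v) y ω))
        (fun y => meas_term _ _ _ _ (meas_cnt h n z (i :: v) y))]
      refine tsum_congr fun y => ?_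
      rw [lint_term, ih]
    rw [Finset.sum_congr rfl h2]
    simp

theorem lint_child {m : ℕ} {a : ℕ → V → V → Prop} {P : V → PMF V}
    {Y : List ℕ × V → Ω → V} (h : Good ν P Y) (n : ℕ) (z : V) (u : List ℕ) (x : V) :
    ∫⁻ ω, term (a n) z x (Y (u, x) ω) (cnt m a Y n z u (Y (u, x) ω) ω) ∂ν
      = ∑' y, P x y * term (a n) z x y (mn m a P n z y) := by
  rw [fresh h (S := Below u) (notMem_below u x)
    (H := fun y ω => term (a n) z x y (cnt m a Y n z u y ω))
    (fun y => meas_term _ _ _ _ (meas_cnt h n z u y))]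
  refine tsum_congr fun y => ?_
  rw [lint_term, lint_cnt h n z]

theorem lint_cnt_mul {m : ℕ} {a : ℕ → V → V → Prop} {P : V → PMF V}
    {Y : List ℕ × V → Ω → V} (h : Good ν P Y) (n : ℕ) (z₁ z₂ : V) :
    ∀ (v : List ℕ) (x : V), ∫⁻ ω, cnt m a Y n z₁ v x ω * cnt m a Y n z₂ v x ω ∂ν
      ≤ sm m a P n z₁ z₂ x := by
  classical
  induction n with
  | zero => intro v x; simp [cnt]
  | succ n ih =>
    intro v x
    set ζ : V → ℕ → Ω → ℝ≥0∞ := fun z i ω =>
      term (a n) z x (Y (i :: v, x) ω) (cnt m a Y n z (i :: v) (Y (i :: v, x) ω) ω) with hζ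
    have hm : ∀ z i, Measurable[sig Y (BelowEq (i :: v))] (ζ z i) := fun z i =>
      meas_child h n z (i :: v) x
    have hm' : ∀ z i, Measurable (ζ z i) := fun z i => (hm z i).mono (sig_le h _) le_rfl
    set b : V → ℝ≥0∞ := fun z => ∑' y, P x y * term (a n) z x y (mn m a P n z y) with hb
    have hmean : ∀ z i, ∫⁻ ω, ζ z i ω ∂ν = b z := fun z i => lint_child h n z (i :: v) x
    have hdiag : ∀ i, ∫⁻ ω, ζ z₁ i ω * ζ z₂ i ω ∂ν ≤
        ∑' y, P x y * term2 (a n) z₁ z₂ x y (mn m a P n z₁ y)
          (mn m a P n z₂ y) (sm m a P n z₁ z₂ y) := by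
      intro i
      have hH : ∀ y, Measurable[sig Y (Below (i :: v))]
          (fun ω => term (a n) z₁ x y (cnt m a Y n z₁ (i :: v) y ω)
            * term (a n) z₂ x y (cnt m a Y n z₂ (i :: v) y ω)) := fun y =>
        (meas_term _ _ _ _ (meas_cnt h n z₁ (i :: v) y)).mul
          (meas_term _ _ _ _ (meas_cnt h n z₂ (i :: v) y))
      have h1 := fresh h (S := Below (i :: v)) (w := i :: v) (x := x) (notMem_below (i :: v) x) hH
      have h2 : ∫⁻ ω, ζ z₁ i ω * ζ z₂ i ω ∂ν = _ := h1
      rw [h2]
      refine ENNReal.tsum_le_tsum fun y => ?_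
      gcongr
      have c1 : Measurable (cnt m a Y n z₁ (i :: v) y) :=
        (meas_cnt h n z₁ (i :: v) y).mono (sig_le h _) le_rfl
      have c2 : Measurable (cnt m a Y n z₂ (i :: v) y) :=
        (meas_cnt h n z₂ (i :: v) y).mono (sig_le h _) le_rfl
      unfold term term2
      by_cases ha : a n x y
      · simp only [ha, if_true]
        set d₁ : ℝ≥0∞ := if y = z₁ then 1 else 0
        set d₂ : ℝ≥0∞ := if y = z₂ then 1 else 0
        have e1 : ∀ ω, (d₁ + cnt m a Y n z₁ (i :: v) y ω) * (d₂ + cnt m a Y n z₂ (i :: v) y ω)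
            = d₁ * d₂ + d₁ * cnt m a Y n z₂ (i :: v) y ω + d₂ * cnt m a Y n z₁ (i :: v) y ω
              + cnt m a Y n z₁ (i :: v) y ω * cnt m a Y n z₂ (i :: v) y ω := by
          intro ω; ring
        simp_rw [e1]
        rw [lintegral_add_left, lintegral_add_left, lintegral_add_left, lintegral_const,
          lintegral_const_mul _ c2, lintegral_const_mul _ c1, lint_cnt h, lint_cnt h]
        · simp only [measure_univ, mul_one]
          gcongr
          exact ih (i :: v) y
        · exact measurable_const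
        · exact measurable_const.add (c2.const_mul _)
        · exact (measurable_const.add (c2.const_mul _)).add (c1.const_mul _)
      · simp [ha]
    have hcross : ∀ i j, i ≠ j → ∫⁻ ω, ζ z₁ i ω * ζ z₂ j ω ∂ν = b z₁ * b z₂ := by
      intro i j hij
      rw [lint_mul h (NC.of_ne hij).disj (hm z₁ i) (hm z₂ j), hmean, hmean]
    have e2 : ∀ ω, cnt m a Y (n + 1) z₁ v x ω * cnt m a Y (n + 1) z₂ v x ω
        = ∑ i ∈ Finset.range m, ∑ j ∈ Finset.range m, ζ z₁ i ω * ζ z₂ j ω := by
      intro ω
      simp only [cnt]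
      rw [Finset.sum_mul_sum]
    simp_rw [e2]
    have hmm : ∀ i j, Measurable (fun ω => ζ z₁ i ω * ζ z₂ j ω) :=
      fun i j => (hm' z₁ i).mul (hm' z₂ j)
    have e3 : ∫⁻ ω, ∑ i ∈ Finset.range m, ∑ j ∈ Finset.range m, ζ z₁ i ω * ζ z₂ j ω ∂ν
        = ∑ i ∈ Finset.range m, ∑ j ∈ Finset.range m, ∫⁻ ω, ζ z₁ i ω * ζ z₂ j ω ∂ν := by
      rw [lintegral_finsetSum _ (fun i _ => Finset.measurable_fun_sum _ fun j _ => hmm i j)]
      refine Finset.sum_congr rfl fun i _ => ?_
      rw [lintegral_finsetSum _ (fun j _ => hmm i j)]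
    rw [e3]
    have h3 : ∀ i ∈ Finset.range m, ∑ j ∈ Finset.range m, ∫⁻ ω, ζ z₁ i ω * ζ z₂ j ω ∂ν
        ≤ (∑' y, P x y * term2 (a n) z₁ z₂ x y (mn m a P n z₁ y)
          (mn m a P n z₂ y) (sm m a P n z₁ z₂ y)) + m * (b z₁ * b z₂) := by
      intro i hi
      calc ∑ j ∈ Finset.range m, ∫⁻ ω, ζ z₁ i ω * ζ z₂ j ω ∂ν
          ≤ ∑ j ∈ Finset.range m, ((if i = j then (∑' y, P x y * term2 (a n) z₁ z₂ x y
              (mn m a P n z₁ y) (mn m a P n z₂ y) (sm m a P n z₁ z₂ y)) else 0)
              + b z₁ * b z₂) := by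
            refine Finset.sum_le_sum fun j _ => ?_
            by_cases hij : i = j
            · subst hij
              simp only [if_true]
              exact (hdiag i).trans le_self_add
            · simp only [hij, if_false, zero_add]
              exact (hcross i j hij).le
        _ = _ := by
            rw [Finset.sum_add_distrib, Finset.sum_ite_eq, if_pos hi]
            simp
    refine (Finset.sum_le_sum h3).trans ?_
    simp only [Finset.sum_const, Finset.card_range, nsmul_eq_mul, sm, mn]
    rw [mul_add]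
    refine le_of_eq ?_
    simp only [hb]
    ring

/-- A positive count gives a descendant at the vertex. -/
def dpos (Y : List ℕ × V → V) (v : List ℕ) (x : V) : List ℕ → V
  | [] => x
  | i :: w => Y (i :: (w ++ v), dpos Y v x w)

theorem dpos_append (Y : List ℕ × V → V) (v : List ℕ) (x : V) (u w : List ℕ) :
    dpos Y v x (w ++ u) = dpos Y (u ++ v) (dpos Y v x u) w := by
  induction w with
  | nil => rfl
  | cons i w ih => simp [dpos, ih]

theorem dpos_nil (Y : List ℕ × V → V) (x : V) (w : List ℕ) : dpos Y [] x w = pos Y x w := by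
  induction w with
  | nil => rfl
  | cons i w ih => simp [dpos, pos, ih]

theorem exists_of_cnt {m : ℕ} {a : ℕ → V → V → Prop} {Y : List ℕ × V → Ω → V} (ω : Ω)
    (n : ℕ) (z : V) : ∀ (v : List ℕ) (x : V), cnt m a Y n z v x ω ≠ 0 →
      ∃ w, (∀ i ∈ w, i < m) ∧ dpos (fun s => Y s ω) v x w = z := by
  classical
  induction n with
  | zero => intro v x h; simp [cnt] at h
  | succ n ih =>
    intro v x h
    simp only [cnt] at h
    obtain ⟨i, hi, h1⟩ := Finset.exists_ne_zero_of_sum_ne_zero h
    have hi' : i < m := Finset.mem_range.1 hi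
    unfold term at h1
    split_ifs at h1 with h2 h3
    · refine ⟨[i], by simpa using hi', ?_⟩
      simp [dpos, h3]
    · rw [zero_add] at h1
      obtain ⟨w, hw, hw'⟩ := ih (i :: v) _ h1
      refine ⟨w ++ [i], ?_, ?_⟩
      · intro j hj
        rcases List.mem_append.1 hj with hj | hj
        · exact hw j hj
        · simp at hj
          omega
      · rw [dpos_append]
        exact hw'
    · exact absurd rfl h1

end Pool.Agent.Q171.BW
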