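import Mathlib

/-!
# Branching random walks: the model

Kernels are maps `P : V → PMF V`.  The branching random walk with offspring law `μ`
is indexed by Ulam Harris labels, written with the last born index first: the children
of the particle `w` are the particles `i :: w` with `i < N w`, where `N w` is the number
of offspring of `w`, and the child `i :: w` sits at `Y (i :: w, x)` when `w` sits at `x`.
All the variables `N w` (of law `μ`) and `Y (w, x)` (of law `P x`) are independent.
-/

open MeasureTheory ProbabilityTheory Filter
open scoped ENNReal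

namespace Pool.Agent.Q171.BW

variable {V : Type}

/-- `nstep P n x` is the law of the walk with kernel `P` started at `x` after `n` steps. -/
noncomputable def nstep (P : V → PMF V) : ℕ → V → PMF V
  | 0, x => PMF.pure x
  | n + 1, x => (P x).bind (nstep P n)

/-- The walk moves exactly along the edges of the graph. -/
def NearestNeighbour (G : SimpleGraph V) (P : V → PMF V) : Prop :=
  ∀ x y, P x y ≠ 0 ↔ G.Adj x y

/-- The kernel is irreducible. -/
def Irred (P : V → PMF V) : Prop := ∀ x y, ∃ n, nstep P n x y ≠ 0

/-- Quasi-symmetry of a kernel. -/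
def QuasiSymmetric (P : V → PMF V) : Prop :=
  ∃ C : ℝ≥0∞, C ≠ ⊤ ∧ ∀ x y n, nstep P n x y ≤ C * nstep P n y x

/-- `ρ` is the spectral radius of the kernel. -/
def IsSpectralRadius (P : V → PMF V) (ρ : ℝ≥0∞) : Prop :=
  ∀ x y, limsup (fun n : ℕ => (nstep P n x y) ^ (1 / (n : ℝ))) atTop = ρ

/-- The mean of an offspring law. -/
noncomputable def mean (μ : PMF ℕ) : ℝ≥0∞ := ∑' n : ℕ, (n : ℝ≥0∞) * μ n

/-- The randomness: offspring numbers and choices of steps. -/
abbrev Env (V : Type) := (List ℕ → ℕ) × (List ℕ × V → V)

/-- The law of the randomness. -/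
noncomputable def envLaw [MeasurableSpace V] (μ : PMF ℕ) (P : V → PMF V) : Measure (Env V) :=
  (Measure.infinitePi (fun _ : List ℕ => μ.toMeasure)).prod
    (Measure.infinitePi (fun s : List ℕ × V => (P s.2).toMeasure))

/-- The label `w` belongs to a particle. -/
def alive (N : List ℕ → ℕ) : List ℕ → Prop
  | [] => True
  | i :: w => i < N w ∧ alive N w

/-- The position of the particle `w`, the first particle being at `o`. -/
def pos (Y : List ℕ × V → V) (o : V) : List ℕ → V
  | [] => o
  | i :: w => Y (i :: w, pos Y o w)

/-- The trace: the graph of all edges traversed by some particle. -/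
def trace (ω : Env V) (o : V) : SimpleGraph V :=
  SimpleGraph.fromRel (fun x y => ∃ i w, alive ω.1 (i :: w) ∧
    pos ω.2 o w = x ∧ pos ω.2 o (i :: w) = y)

/-- The number of ends: the supremum over finite sets `K` of the number of infinite
connected components of the graph deprived of `K`. -/
noncomputable def ends (H : SimpleGraph V) : ℕ∞ :=
  ⨆ K : Finset V, Set.encard {C : (H.induce ((K : Set V)ᶜ)).ConnectedComponent |
    C.supp.Infinite}

end Pool.Agent.Q171.BW
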