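import Pool.Agent.Q171.BW.Hit

/-!
# The number of ends of the trace
-/

open scoped ENNReal
open Filter Topology MeasureTheory ProbabilityTheory

namespace Pool.Agent.Q171.BW

variable {V : Type}

theorem alive_iff {m : ℕ} {N : List ℕ → ℕ} (hN : ∀ w, N w = m) (w : List ℕ) :
    alive N w ↔ ∀ i ∈ w, i < m := by
  induction w with
  | nil => simp [alive]
  | cons i w ih => simp [alive, ih, hN]

theorem trace_adj {m : ℕ} {ω : Env V} {o : V} (hN : ∀ w, ω.1 w = m) {i : ℕ} {w : List ℕ}
    (h : ∀ j ∈ i :: w, j < m) (hne : pos ω.2 o w ≠ pos ω.2 o (i :: w)) :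
    (trace ω o).Adj (pos ω.2 o w) (pos ω.2 o (i :: w)) := by
  unfold trace
  rw [SimpleGraph.fromRel_adj]
  exact ⟨hne, Or.inl ⟨i, w, (alive_iff hN _).2 h, rfl, rfl⟩⟩

theorem reach_desc {m : ℕ} {ω : Env V} {o : V} (hN : ∀ w, ω.1 w = m) (K : Finset V)
    {v : List ℕ} (hv : ∀ j ∈ v, j < m)
    (hK : ∀ u : List ℕ, (∀ j ∈ u, j < m) → pos ω.2 o (u ++ v) ∈ ((K : Set V)ᶜ))
    (u : List ℕ) (hu : ∀ j ∈ u, j < m) :
    ((trace ω o).induce ((K : Set V)ᶜ)).Reachable
      ⟨pos ω.2 o v, hK [] (by simp)⟩ ⟨pos ω.2 o (u ++ v), hK u hu⟩ := by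
  induction u with
  | nil => exact SimpleGraph.Reachable.refl _
  | cons i u ih =>
    have hu' : ∀ j ∈ u, j < m := fun j hj => hu j (List.mem_cons_of_mem _ hj)
    refine (ih hu').trans ?_
    by_cases hne : pos ω.2 o (u ++ v) = pos ω.2 o (i :: u ++ v)
    · have : (⟨pos ω.2 o (u ++ v), hK u hu'⟩ : ((K : Set V)ᶜ : Set V))
          = ⟨pos ω.2 o (i :: u ++ v), hK (i :: u) hu⟩ := Subtype.ext hne
      rw [this]
    · refine SimpleGraph.Adj.reachable ?_
      rw [SimpleGraph.comap_adj]
      refine trace_adj hN ?_ hne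
      intro j hj
      rcases List.mem_cons.1 hj with rfl | hj
      · exact hu _ (by simp)
      · rcases List.mem_append.1 hj with hj | hj
        · exact hu' j hj
        · exact hv j hj

theorem exists_fin {m : ℕ} {w : List ℕ} (h : ∀ i ∈ w, i < m) :
    ∃ w' : List (Fin m), w'.map Fin.val = w := by
  induction w with
  | nil => exact ⟨[], rfl⟩
  | cons i w ih =>
    obtain ⟨w', hw'⟩ := ih (fun j hj => h j (List.mem_cons_of_mem _ hj))
    exact ⟨⟨i, h i (by simp)⟩ :: w', by simp [hw']⟩

theorem ends_eq_one {m : ℕ} (hm : 1 ≤ m) {ω : Env V} {o : V} (hN : ∀ w, ω.1 w = m)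
    (hfin : ∀ z, {w : List (Fin m) | pos ω.2 o (w.map Fin.val) = z}.Finite)
    (hmeet : ∀ v v', NC v v' → ∃ w w', (∀ i ∈ w, i < m) ∧ (∀ i ∈ w', i < m) ∧
      pos ω.2 o (w ++ v) = pos ω.2 o (w' ++ v')) :
    ends (trace ω o) = 1 := by
  classical
  set H := trace ω o with hH
  refine le_antisymm (iSup_le fun K => ?_) (le_iSup_of_le ∅ ?_)
  · -- at most one infinite component
    set B : Set (List (Fin m)) := ⋃ z ∈ K, {w | pos ω.2 o (w.map Fin.val) = z} with hB
    have hBfin : B.Finite := Set.Finite.biUnion K.finite_toSet fun z _ => hfin z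
    obtain ⟨n₀, hn₀⟩ := (hBfin.image List.length).bddAbove
    have hfar : ∀ v : List ℕ, (∀ j ∈ v, j < m) → n₀ < v.length →
        ∀ u : List ℕ, (∀ j ∈ u, j < m) → pos ω.2 o (u ++ v) ∈ ((K : Set V)ᶜ) := by
      intro v hv hlen u hu hmem
      have huv : ∀ j ∈ u ++ v, j < m := by
        intro j hj
        rcases List.mem_append.1 hj with hj | hj
        · exact hu j hj
        · exact hv j hj
      obtain ⟨w', hw'⟩ := exists_fin huv
      have hw'B : w' ∈ B := by
        rw [hB]
        simp only [Set.mem_iUnion]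
        exact ⟨_, hmem, by show pos ω.2 o (w'.map Fin.val) = _; rw [hw']⟩
      have h1 : w'.length ≤ n₀ := hn₀ ⟨w', hw'B, rfl⟩
      have h2 : w'.length = (u ++ v).length := by rw [← hw', List.length_map]
      rw [List.length_append] at h2
      omega
    -- every infinite component contains a late particle
    have hlate : ∀ C : (H.induce ((K : Set V)ᶜ)).ConnectedComponent, C.supp.Infinite →
        ∃ (v : List ℕ) (hv : ∀ j ∈ v, j < m) (hl : n₀ < v.length),
          (H.induce ((K : Set V)ᶜ)).connectedComponentMk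
            ⟨pos ω.2 o v, hfar v hv hl [] (by simp)⟩ = C := by
      intro C hC
      set Vs : Set V := (fun w : List (Fin m) => pos ω.2 o (w.map Fin.val)) ''
        {w | w.length ≤ n₀} with hVs
      have hVsfin : Vs.Finite := (List.finite_length_le (Fin m) n₀).image _
      have hinf : (Subtype.val '' C.supp).Infinite :=
        hC.image Subtype.val_injective.injOn
      obtain ⟨x, hxC, hxV⟩ := hinf.exists_notMem_finite hVsfin
      obtain ⟨x', hx', rfl⟩ := hxC
      obtain ⟨y, hy, hyx⟩ := hC.exists_notMem_finite (Set.finite_singleton x')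
      have hreach : (H.induce ((K : Set V)ᶜ)).Reachable x' y := by
        have h1 : (H.induce ((K : Set V)ᶜ)).connectedComponentMk x' = C := hx'
        have h2 : (H.induce ((K : Set V)ᶜ)).connectedComponentMk y = C := hy
        exact SimpleGraph.ConnectedComponent.exact (h1.trans h2.symm)
      obtain ⟨t, ht⟩ : ∃ t, (H.induce ((K : Set V)ᶜ)).Adj x' t := by
        obtain ⟨p⟩ := hreach
        cases p with
        | nil => exact absurd rfl hyx
        | cons h _ => exact ⟨_, h⟩
      have hadj : H.Adj x'.1 t.1 := ht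
      obtain ⟨v, hv, hvx⟩ : ∃ v : List ℕ, (∀ j ∈ v, j < m) ∧ pos ω.2 o v = x'.1 := by
        rw [hH, trace, SimpleGraph.fromRel_adj] at hadj
        rcases hadj.2 with ⟨i, w, hal, h1, h2⟩ | ⟨i, w, hal, h1, h2⟩
        · exact ⟨w, fun j hj => (alive_iff hN _).1 hal j (List.mem_cons_of_mem _ hj), h1⟩
        · exact ⟨i :: w, (alive_iff hN _).1 hal, h2⟩
      have hl : n₀ < v.length := by
        by_contra hle
        push Not at hle
        obtain ⟨w', hw'⟩ := exists_fin hv
        apply hxV
        refine ⟨w', ?_, ?_⟩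
        · show w'.length ≤ n₀
          rw [← hw', List.length_map] at hle
          exact hle
        · show pos ω.2 o (w'.map Fin.val) = _
          rw [hw', hvx]
      refine ⟨v, hv, hl, ?_⟩
      have h1 : (⟨pos ω.2 o v, hfar v hv hl [] (by simp)⟩ : ((K : Set V)ᶜ : Set V)) = x' :=
        Subtype.ext hvx
      rw [h1]
      exact hx'
    rw [Set.encard_le_one_iff]
    intro C C' hC hC'
    obtain ⟨v, hv, hl, rfl⟩ := hlate C hC
    obtain ⟨v', hv', hl', rfl⟩ := hlate C' hC'
    rw [SimpleGraph.ConnectedComponent.eq]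
    by_cases h1 : v <:+ v'
    · obtain ⟨u, rfl⟩ := h1
      have hu : ∀ j ∈ u, j < m := fun j hj => hv' j (List.mem_append_left _ hj)
      exact reach_desc hN K hv (hfar v hv hl) u hu
    · by_cases h2 : v' <:+ v
      · obtain ⟨u, rfl⟩ := h2
        have hu : ∀ j ∈ u, j < m := fun j hj => hv j (List.mem_append_left _ hj)
        exact (reach_desc hN K hv' (hfar v' hv' hl') u hu).symm
      · obtain ⟨w, w', hw, hw', heq⟩ := hmeet v v' ⟨h1, h2⟩
        have r1 := reach_desc hN K hv (hfar v hv hl) w hw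
        have r2 := reach_desc hN K hv' (hfar v' hv' hl') w' hw'
        have h3 : (⟨pos ω.2 o (w ++ v), hfar v hv hl w hw⟩ : ((K : Set V)ᶜ : Set V))
            = ⟨pos ω.2 o (w' ++ v'), hfar v' hv' hl' w' hw'⟩ := Subtype.ext heq
        rw [h3] at r1
        exact r1.trans r2.symm
  · -- there is an infinite component
    rw [Set.one_le_encard_iff_nonempty]
    have hK : ∀ u : List ℕ, (∀ j ∈ u, j < m) → pos ω.2 o (u ++ []) ∈ (((∅ : Finset V) : Set V)ᶜ) :=
      fun u _ => by simp
    refine ⟨(H.induce (((∅ : Finset V) : Set V)ᶜ)).connectedComponentMk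
      ⟨pos ω.2 o [], hK [] (by simp)⟩, ?_⟩
    show Set.Infinite _
    intro hfinC
    have himg : (Set.range (fun w : List (Fin m) => pos ω.2 o (w.map Fin.val))).Finite := by
      refine (hfinC.image Subtype.val).subset ?_
      rintro _ ⟨w, rfl⟩
      have hw : ∀ j ∈ w.map Fin.val, j < m := by
        intro j hj
        obtain ⟨a, _, rfl⟩ := List.mem_map.1 hj
        exact a.2
      have r := reach_desc hN ∅ (v := []) (by simp) hK (w.map Fin.val) hw
      refine ⟨⟨pos ω.2 o (w.map Fin.val ++ []), hK _ hw⟩, ?_, ?_⟩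
      · exact SimpleGraph.ConnectedComponent.sound r.symm
      · simp
    have hwords : (Set.univ : Set (List (Fin m))).Finite := by
      refine Set.Finite.of_finite_fibers (fun w : List (Fin m) => pos ω.2 o (w.map Fin.val)) ?_ ?_
      · rw [Set.image_univ]; exact himg
      · intro z _
        rw [Set.univ_inter]
        exact hfin z
    have : Nonempty (Fin m) := ⟨⟨0, hm⟩⟩
    exact Set.infinite_univ hwords

/-- The law of the choices makes them good. -/
theorem good_env {V : Type} [MeasurableSpace V] [DiscreteMeasurableSpace V] [Countable V]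
    (P : V → PMF V) :
    Good (Measure.infinitePi (fun s : List ℕ × V => (P s.2).toMeasure)) P
      (fun s ω => ω s) where
  meas s := measurable_pi_apply s
  ind := by
    have := iIndepFun_infinitePi (P := fun s : List ℕ × V => (P s.2).toMeasure)
      (X := fun s (x : V) => x) (fun s => measurable_id)
    exact this
  law w x y := by
    have h0 := measurePreserving_eval_infinitePi
      (fun s : List ℕ × V => (P s.2).toMeasure) (w, x)
    have hy : MeasurableSet ({y} : Set V) := MeasurableSet.of_discrete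
    have h1 := h0.measure_preimage (s := ({y} : Set V)) hy.nullMeasurableSet
    refine Eq.trans h1 ?_
    rw [PMF.toMeasure_apply_singleton _ _ hy]

theorem main_ends (o : cc.Vtx) :
    ∀ᵐ ω ∂envLaw (PMF.pure 1024) cc.P, ends (trace ω o) = 1 := by
  set ν := Measure.infinitePi (fun s : List ℕ × cc.Vtx => (cc.P s.2).toMeasure) with hν
  set Y : List ℕ × cc.Vtx → (List ℕ × cc.Vtx → cc.Vtx) → cc.Vtx := fun s ω => ω s with hYdef
  have hgood : Good ν cc.P Y := good_env cc.P
  have h1 : ∀ᵐ ω ∂ν, ∀ z, {w : List (Fin 1024) | pos ω o (w.map Fin.val) = z}.Finite :=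
    finite_visits hgood o
  have h2 : ∀ᵐ ω ∂ν, ∀ v v' x x', NC v v' → ω ∉ NoMeet 1024 Y v v' x x' := by
    rw [ae_all_iff]; intro v
    rw [ae_all_iff]; intro v'
    rw [ae_all_iff]; intro x
    rw [ae_all_iff]; intro x'
    by_cases hv : NC v v'
    · have := noMeet_null hgood v v' x x' hv
      filter_upwards [measure_eq_zero_iff_ae_notMem.1 this] with ω hω _
      exact hω
    · exact Eventually.of_forall fun ω h => absurd h hv
  have h3 : ∀ᵐ N ∂(Measure.infinitePi (fun _ : List ℕ => (PMF.pure 1024).toMeasure)),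
      ∀ w : List ℕ, N w = 1024 := by
    rw [ae_all_iff]
    intro w
    have hmp := measurePreserving_eval_infinitePi
      (fun _ : List ℕ => (PMF.pure 1024).toMeasure) w
    have h4 : ∀ᵐ n ∂((PMF.pure 1024).toMeasure), n = 1024 := by
      rw [PMF.toMeasure_pure, ae_dirac_eq]
      simp
    exact hmp.quasiMeasurePreserving.ae h4
  have h5 : ∀ᵐ ω ∂envLaw (PMF.pure 1024) cc.P, ∀ w : List ℕ, ω.1 w = 1024 :=
    Measure.quasiMeasurePreserving_fst.ae h3
  have h6 : ∀ᵐ ω ∂envLaw (PMF.pure 1024) cc.P,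
      (∀ z, {w : List (Fin 1024) | pos ω.2 o (w.map Fin.val) = z}.Finite) ∧
      ∀ v v' x x', NC v v' → ω.2 ∉ NoMeet 1024 Y v v' x x' :=
    Measure.quasiMeasurePreserving_snd.ae (h1.and h2)
  filter_upwards [h5, h6] with ω hω hω'
  refine ends_eq_one (by norm_num) hω hω'.1 ?_
  intro v v' hv
  have h7 := hω'.2 v v' (pos ω.2 o v) (pos ω.2 o v') hv
  unfold NoMeet at h7
  simp only [Set.mem_ofPred_eq, not_forall, not_not] at h7
  obtain ⟨w, w', hw, hw', heq⟩ := h7
  refine ⟨w, w', hw, hw', ?_⟩
  have e1 : ∀ (a b : List ℕ), pos ω.2 o (a ++ b) = dpos ω.2 b (pos ω.2 o b) a := by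
    intro a b
    have := dpos_append ω.2 [] o b a
    rw [List.append_nil, dpos_nil, dpos_nil] at this
    exact this
  rw [e1, e1]
  exact heq

end Pool.Agent.Q171.BW
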