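import Pool.Agent.Q171.BW.Defs

/-!
# Independence tools for the family of choices
-/

open MeasureTheory ProbabilityTheory Filter
open scoped ENNReal

namespace Pool.Agent.Q171.BW

set_option linter.unusedSectionVars false

variable {V : Type} {Ω : Type} [mΩ : MeasurableSpace Ω] {ν : Measure Ω}
  [MeasurableSpace V] [DiscreteMeasurableSpace V] [Countable V]

/-- The family of choices: measurable, independent, with the right laws. -/
structure Good (ν : Measure Ω) (P : V → PMF V) (Y : List ℕ × V → Ω → V) : Prop where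
  meas : ∀ s, Measurable (Y s)
  ind : iIndepFun Y ν
  law : ∀ w x y, ν {ω | Y (w, x) ω = y} = P x y

/-- The sigma algebra generated by the choices with index in `S`. -/
@[reducible] def sig (Y : List ℕ × V → Ω → V) (S : Set (List ℕ × V)) : MeasurableSpace Ω :=
  ⨆ s ∈ S, MeasurableSpace.comap (Y s) inferInstance

theorem sig_le {P : V → PMF V} {Y : List ℕ × V → Ω → V} (h : Good ν P Y)
    (S : Set (List ℕ × V)) : sig Y S ≤ mΩ := by
  refine iSup₂_le fun s _ => ?_
  exact (h.meas s).comap_le

theorem sig_mono {Y : List ℕ × V → Ω → V} {S T : Set (List ℕ × V)} (hST : S ⊆ T) :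
    sig Y S ≤ sig Y T :=
  biSup_mono hST

theorem meas_sig {Y : List ℕ × V → Ω → V} {S : Set (List ℕ × V)} {s : List ℕ × V}
    (hs : s ∈ S) : Measurable[sig Y S] (Y s) := by
  have h1 : MeasurableSpace.comap (Y s) inferInstance ≤ sig Y S :=
    le_iSup₂_of_le s hs le_rfl
  exact Measurable.mono (comap_measurable (Y s)) h1 le_rfl

theorem indep_sig {P : V → PMF V} {Y : List ℕ × V → Ω → V} (h : Good ν P Y)
    {S T : Set (List ℕ × V)} (hST : Disjoint S T) : Indep (sig Y S) (sig Y T) ν :=
  indep_iSup_of_disjoint (fun s => (h.meas s).comap_le) h.ind hST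

theorem lint_mul {P : V → PMF V} {Y : List ℕ × V → Ω → V} (h : Good ν P Y)
    {S T : Set (List ℕ × V)} (hST : Disjoint S T) {f g : Ω → ℝ≥0∞}
    (hf : Measurable[sig Y S] f) (hg : Measurable[sig Y T] g) :
    ∫⁻ ω, f ω * g ω ∂ν = (∫⁻ ω, f ω ∂ν) * ∫⁻ ω, g ω ∂ν :=
  lintegral_mul_eq_lintegral_mul_lintegral_of_independent_measurableSpace
    (sig_le h S) (sig_le h T) (indep_sig h hST) hf hg

/-- Substituting a countably valued variable. -/
theorem meas_subst {m : MeasurableSpace Ω} {β : Type} [MeasurableSpace β] {Z : Ω → V}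
    (hZ : Measurable[m] Z) {H : V → Ω → β} (hH : ∀ y, Measurable[m] (H y)) :
    Measurable[m] (fun ω => H (Z ω) ω) := by
  intro B hB
  have h1 : (fun ω => H (Z ω) ω) ⁻¹' B = ⋃ y : V, Z ⁻¹' {y} ∩ (H y) ⁻¹' B := by
    ext ω
    simp
  rw [h1]
  exact MeasurableSet.iUnion fun y =>
    MeasurableSet.inter (hZ (MeasurableSet.of_discrete)) (hH y hB)

/-- Integration over a fresh choice. -/
theorem fresh {P : V → PMF V} {Y : List ℕ × V → Ω → V} (h : Good ν P Y)
    {S : Set (List ℕ × V)} {w : List ℕ} {x : V} (hS : (w, x) ∉ S) {H : V → Ω → ℝ≥0∞}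
    (hH : ∀ y, Measurable[sig Y S] (H y)) :
    ∫⁻ ω, H (Y (w, x) ω) ω ∂ν = ∑' y, P x y * ∫⁻ ω, H y ω ∂ν := by
  classical
  have h1 : ∀ ω, H (Y (w, x) ω) ω
      = ∑' y, ({ω | Y (w, x) ω = y} : Set Ω).indicator 1 ω * H y ω := by
    intro ω
    rw [tsum_eq_single (Y (w, x) ω)]
    · simp
    · intro y hy
      have : ω ∉ ({ω | Y (w, x) ω = y} : Set Ω) := fun h => hy h.symm
      simp [Set.indicator_of_notMem this]
  simp_rw [h1]
  have hm : ∀ y, Measurable[sig Y {(w, x)}]
      (({ω | Y (w, x) ω = y} : Set Ω).indicator (1 : Ω → ℝ≥0∞)) := by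
    intro y
    refine Measurable.indicator (m := sig Y {(w, x)}) (measurable_const) ?_
    exact meas_sig (Set.mem_singleton _) (MeasurableSet.of_discrete (s := {y}))
  rw [lintegral_tsum]
  · refine tsum_congr fun y => ?_
    rw [lint_mul h (S := {(w, x)}) (T := S) (Set.disjoint_singleton_left.2 hS) (hm y) (hH y)]
    congr 1
    rw [lintegral_indicator_one]
    · exact h.law w x y
    · exact h.meas (w, x) (MeasurableSet.of_discrete (s := {y}))
  · intro y
    exact ((hm y).mono (sig_le h _) le_rfl |>.mul ((hH y).mono (sig_le h _) le_rfl)).aemeasurable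

/-- Strict descendants. -/
def Below (v : List ℕ) : Set (List ℕ × V) := {s | ∃ u, u ≠ [] ∧ s.1 = u ++ v}

/-- Descendants, the particle included. -/
def BelowEq (v : List ℕ) : Set (List ℕ × V) := {s | v <:+ s.1}

theorem below_sub (v : List ℕ) : (Below v : Set (List ℕ × V)) ⊆ BelowEq v := by
  rintro s ⟨u, _, hu⟩
  exact ⟨u, hu.symm⟩

theorem belowEq_cons_sub (v : List ℕ) (i : ℕ) :
    (BelowEq (i :: v) : Set (List ℕ × V)) ⊆ Below v := by
  rintro s ⟨u, hu⟩
  refine ⟨u ++ [i], by simp, ?_⟩
  simp [← hu]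

theorem mem_below_cons (v : List ℕ) (i : ℕ) (x : V) : (i :: v, x) ∈ (Below v : Set _) :=
  ⟨[i], by simp, by simp⟩

theorem notMem_below (v : List ℕ) (x : V) : (v, x) ∉ (Below v : Set (List ℕ × V)) := by
  rintro ⟨u, hu, h⟩
  have := congrArg List.length h
  simp at this
  exact hu this

/-- Two particles none of which descends from the other. -/
def NC (v v' : List ℕ) : Prop := ¬ v <:+ v' ∧ ¬ v' <:+ v

theorem NC.disj {v v' : List ℕ} (h : NC v v') :
    Disjoint (BelowEq v : Set (List ℕ × V)) (BelowEq v') := by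
  rw [Set.disjoint_left]
  intro s h1 h2
  rcases List.suffix_or_suffix_of_suffix h1 h2 with h3 | h3
  · exact h.1 h3
  · exact h.2 h3

theorem NC.cons {v v' : List ℕ} (h : NC v v') (i j : ℕ) : NC (i :: v) (j :: v') := by
  constructor
  · intro h1
    have h2 : v <:+ (j :: v') := (List.suffix_cons i v).trans h1
    rcases List.suffix_cons_iff.1 h2 with h3 | h3
    · have := h1.length_le
      rw [h3] at this
      simp at this
    · exact h.1 h3
  · intro h1
    have h2 : v' <:+ (i :: v) := (List.suffix_cons j v').trans h1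
    rcases List.suffix_cons_iff.1 h2 with h3 | h3
    · have := h1.length_le
      rw [h3] at this
      simp at this
    · exact h.2 h3

theorem NC.of_ne {v : List ℕ} {i j : ℕ} (h : i ≠ j) : NC (i :: v) (j :: v) := by
  constructor
  · intro h1
    have := h1.eq_of_length (by simp)
    simp at this
    exact h this
  · intro h1
    have := h1.eq_of_length (by simp)
    simp at this
    exact h this.symm

end Pool.Agent.Q171.BW
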