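import Pool.Agent.Q171.BW.Spec

/-!
# Meeting almost surely, and finitely many visits almost surely
-/

open scoped ENNReal
open Filter Topology MeasureTheory ProbabilityTheory

namespace Pool.Agent.Q171.BW

open Cond

instance : MeasurableSpace cc.Vtx := ⊤

instance : DiscreteMeasurableSpace cc.Vtx := ⟨fun _ => trivial⟩

variable {Ω : Type} [mΩ : MeasurableSpace Ω] {ν : Measure Ω} [IsProbabilityMeasure ν]

/-- The vertices of a level. -/
def lev (T : ℕ) : Finset cc.Vtx :=
  (Finset.univ : Finset (Fin (cc.s T))).map ⟨Sigma.mk T, sigma_mk_injective⟩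

theorem sum_lev {M : Type} [AddCommMonoid M] (T : ℕ) (f : cc.Vtx → M) :
    ∑ z ∈ lev T, f z = ∑ i : Fin (cc.s T), f ⟨T, i⟩ :=
  Finset.sum_map _ _ _

theorem noMeet_bound {Y : List ℕ × cc.Vtx → Ω → cc.Vtx} (h : Good ν cc.P Y)
    (v v' : List ℕ) (x x' : cc.Vtx) (hv : NC v v') :
    ν (NoMeet 1024 Y v v' x x') ≤ 15 / 16 := by
  classical
  obtain ⟨K₁, hK₁⟩ := sched x.1
  obtain ⟨K₂, hK₂⟩ := sched x'.1
  set K := max K₁ K₂
  obtain ⟨al₁, n₁, hg, hk⟩ := hK₁ K (le_max_left _ _)
  obtain ⟨al₂, n₂, hg', hk'⟩ := hK₂ K (le_max_right _ _)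
  set T := 2 * K with hT
  set g := cc.gam 1024 al₁ T n₁ x.1 with hgdef
  set g' := cc.gam 1024 al₂ T n₂ x'.1 with hgdef'
  set κ := cc.kap 1024 al₁ T n₁ x.1 with hκdef
  set κ' := cc.kap 1024 al₂ T n₂ x'.1 with hκdef'
  have hg0 : 0 ≤ g := cc.gam_nonneg _ _ _ _ _
  have hg0' : 0 ≤ g' := cc.gam_nonneg _ _ _ _ _
  have hκ0 : 0 ≤ κ := cc.kap_nonneg _ _ _ _ _
  have hκ0' : 0 ≤ κ' := cc.kap_nonneg _ _ _ _ _
  have hs := cc.s_pos' T
  have hs1 : (1 : ℝ) ≤ cc.s T := by exact_mod_cast cc.s_pos T
  set S : ℝ := (cc.s T : ℝ) with hS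
  have hg1 : 1 ≤ g := by nlinarith
  have hg1' : 1 ≤ g' := by nlinarith
  have hprod : S ≤ g * g' := by
    have h1 : S ^ 2 ≤ (g * g') ^ 2 := by
      rw [mul_pow, sq S]
      exact mul_le_mul hg hg' hs.le (sq_nonneg _)
    exact le_of_sq_le_sq h1 (by positivity)
  refine noMeet_le h (a := cc.lift al₁) (a' := cc.lift al₂) n₁ n₂ (lev T) hv x x'
    (e := ENNReal.ofReal (g * g' / S)) ?_ ENNReal.ofReal_ne_top ?_ ?_
  · have : 0 < g * g' / S := by positivity
    simpa using this
  · rw [sum_lev]
    have h1 : ∀ i : Fin (cc.s T), mn 1024 (cc.lift al₁) cc.P n₁ ⟨T, i⟩ x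
        * mn 1024 (cc.lift al₂) cc.P n₂ ⟨T, i⟩ x' = ENNReal.ofReal (g / S * (g' / S)) := by
      intro i
      rw [cc.mn_eq, cc.mn_eq, ← ENNReal.ofReal_mul (div_nonneg hg0 hs.le)]
    simp only [h1, Finset.sum_const, Finset.card_univ,
      Fintype.card_fin, nsmul_eq_mul]
    rw [← ENNReal.ofReal_natCast, ← ENNReal.ofReal_mul (Nat.cast_nonneg _)]
    congr 1
    rw [← hS]
    field_simp
  · simp only [sum_lev]
    have h1 : ∀ i j : Fin (cc.s T), sm 1024 (cc.lift al₁) cc.P n₁ ⟨T, i⟩ ⟨T, j⟩ x
        * sm 1024 (cc.lift al₂) cc.P n₂ ⟨T, i⟩ ⟨T, j⟩ x' ≤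
        ENNReal.ofReal (κ / S ^ 2 * (κ' / S ^ 2) + (if i = j then
          κ / S ^ 2 * (g' / S) + g / S * (κ' / S ^ 2) + g / S * (g' / S) else 0)) := by
      intro i j
      have a1 := cc.sm_le 1024 al₁ n₁ T ⟨T, i⟩ ⟨T, j⟩ rfl rfl x
      have a2 := cc.sm_le 1024 al₂ n₂ T ⟨T, i⟩ ⟨T, j⟩ rfl rfl x'
      refine (mul_le_mul' a1 a2).trans ?_
      rw [← ENNReal.ofReal_mul]
      · refine le_of_eq ?_
        congr 1
        rw [← hgdef, ← hgdef', ← hκdef, ← hκdef', ← hS]
        by_cases hij : i = j
        · subst hij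
          rw [bit_true rfl, if_pos rfl]
          ring
        · rw [bit_false (by simpa using hij), if_neg hij]
          ring
      · exact add_nonneg (div_nonneg hκ0 (by positivity))
          (mul_nonneg (bit_nonneg _) (div_nonneg hg0 hs.le))
    have hnn : 0 ≤ κ / S ^ 2 * (g' / S) + g / S * (κ' / S ^ 2) + g / S * (g' / S) := by
      positivity
    have hnn' : 0 ≤ κ / S ^ 2 * (κ' / S ^ 2) := by positivity
    calc ∑ i : Fin (cc.s T), ∑ j : Fin (cc.s T),
          sm 1024 (cc.lift al₁) cc.P n₁ ⟨T, i⟩ ⟨T, j⟩ x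
            * sm 1024 (cc.lift al₂) cc.P n₂ ⟨T, i⟩ ⟨T, j⟩ x'
        ≤ ∑ i : Fin (cc.s T), ∑ j : Fin (cc.s T),
          ENNReal.ofReal (κ / S ^ 2 * (κ' / S ^ 2) + (if i = j then
          κ / S ^ 2 * (g' / S) + g / S * (κ' / S ^ 2) + g / S * (g' / S) else 0)) :=
          Finset.sum_le_sum fun i _ => Finset.sum_le_sum fun j _ => h1 i j
      _ = ENNReal.ofReal (∑ i : Fin (cc.s T), ∑ j : Fin (cc.s T),
          (κ / S ^ 2 * (κ' / S ^ 2) + (if i = j then
          κ / S ^ 2 * (g' / S) + g / S * (κ' / S ^ 2) + g / S * (g' / S) else 0))) := by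
          have hn : ∀ i j : Fin (cc.s T), 0 ≤ κ / S ^ 2 * (κ' / S ^ 2) + (if i = j then
            κ / S ^ 2 * (g' / S) + g / S * (κ' / S ^ 2) + g / S * (g' / S) else 0) := by
            intro i j
            split_ifs
            · exact add_nonneg hnn' hnn
            · exact add_nonneg hnn' le_rfl
          rw [ENNReal.ofReal_sum_of_nonneg (fun i _ => Finset.sum_nonneg fun j _ => hn i j)]
          refine Finset.sum_congr rfl fun i _ => ?_
          rw [ENNReal.ofReal_sum_of_nonneg (fun j _ => hn i j)]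
      _ ≤ 16 * ENNReal.ofReal (g * g' / S) ^ 2 := by
          have h16 : (16 : ℝ≥0∞) = ENNReal.ofReal 16 := by simp
          rw [h16, ← ENNReal.ofReal_pow (by positivity), ← ENNReal.ofReal_mul (by norm_num)]
          apply ENNReal.ofReal_le_ofReal
          simp only [Finset.sum_add_distrib, Finset.sum_ite_eq, Finset.mem_univ, if_true,
            Finset.sum_const, Finset.card_univ, Fintype.card_fin, nsmul_eq_mul]
          rw [← hS]
          have e1 : S * (S * (κ / S ^ 2 * (κ' / S ^ 2))) + S * (κ / S ^ 2 * (g' / S)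
              + g / S * (κ' / S ^ 2) + g / S * (g' / S))
              = (κ * κ' + κ * g' + g * κ' + S * (g * g')) / S ^ 2 := by
            field_simp
            ring
          have e2 : 16 * (g * g' / S) ^ 2 = 16 * (g * g') ^ 2 / S ^ 2 := by
            field_simp
          have hgoal : S * (S * (κ / S ^ 2 * (κ' / S ^ 2))) + S * (κ / S ^ 2 * (g' / S)
              + g / S * (κ' / S ^ 2) + g / S * (g' / S)) ≤ 16 * (g * g' / S) ^ 2 := by
            rw [e1, e2]
            apply div_le_div_of_nonneg_right _ (by positivity)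
            have b1 : κ * κ' ≤ 9 * (g * g') ^ 2 := by
              calc κ * κ' ≤ (3 * g ^ 2) * (3 * g' ^ 2) := by gcongr
                _ = _ := by ring
            have b2 : κ * g' ≤ 3 * (g * g') ^ 2 := by
              calc κ * g' ≤ (3 * g ^ 2) * g' := by gcongr
                _ ≤ (3 * g ^ 2) * g' ^ 2 := by
                  apply mul_le_mul_of_nonneg_left _ (by positivity)
                  nlinarith
                _ = _ := by ring
            have b3 : g * κ' ≤ 3 * (g * g') ^ 2 := by
              calc g * κ' ≤ g * (3 * g' ^ 2) := by gcongr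
                _ ≤ g ^ 2 * (3 * g' ^ 2) := by
                  apply mul_le_mul_of_nonneg_right _ (by positivity)
                  nlinarith
                _ = _ := by ring
            have b4 : S * (g * g') ≤ (g * g') ^ 2 := by
              rw [sq]
              gcongr
            linarith
          convert hgoal using 1
          ring

theorem noMeet_null {Y : List ℕ × cc.Vtx → Ω → cc.Vtx} (h : Good ν cc.P Y)
    (v v' : List ℕ) (x x' : cc.Vtx) (hv : NC v v') :
    ν (NoMeet 1024 Y v v' x x') = 0 := by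
  refine noMeet_zero (by norm_num) h (p := 15 / 16) ?_
    (fun v v' x x' hv => noMeet_bound h v v' x x' hv) v v' x x' hv
  rw [ENNReal.div_lt_iff (by left; norm_num) (by left; norm_num)]
  norm_num

/-- The law of the position of a particle. -/
theorem law_pos {V : Type} [MeasurableSpace V] [DiscreteMeasurableSpace V] [Countable V]
    {P : V → PMF V} {Y : List ℕ × V → Ω → V} (h : Good ν P Y) (o : V) (w : List ℕ) :
    (∀ z, MeasurableSet[sig Y {s | s.1.length ≤ w.length}]
      {ω | pos (fun s => Y s ω) o w = z}) ∧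
    ∀ z, ν {ω | pos (fun s => Y s ω) o w = z} = nstep P w.length o z := by
  classical
  induction w with
  | nil =>
    constructor
    · intro z
      simp only [pos]
      by_cases hz : o = z
      · simp [hz]
      · simp [hz]
    · intro z
      simp only [pos, List.length_nil, nstep, PMF.pure_apply]
      by_cases hz : o = z
      · simp [hz]
      · have : z ≠ o := fun h => hz h.symm
        simp [hz, this]
  | cons i w ih =>
    obtain ⟨ih1, ih2⟩ := ih
    have hset : ∀ z, {ω | pos (fun s => Y s ω) o (i :: w) = z}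
        = ⋃ y : V, {ω | pos (fun s => Y s ω) o w = y} ∩ (Y (i :: w, y)) ⁻¹' {z} := by
      intro z
      ext ω
      simp [pos]
    have hY : ∀ y z, MeasurableSet[sig Y {(i :: w, y)}] ((Y (i :: w, y)) ⁻¹' {z}) := fun y z =>
      meas_sig (Set.mem_singleton _) (MeasurableSet.of_discrete (s := {z}))
    constructor
    · intro z
      rw [hset]
      refine MeasurableSet.iUnion fun y => MeasurableSet.inter ?_ ?_
      · refine sig_mono ?_ _ (ih1 y)
        intro s hs
        simp only [Set.mem_ofPred_eq, List.length_cons] at hs ⊢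
        omega
      · refine sig_mono ?_ _ (hY y z)
        intro s hs
        rw [Set.mem_singleton_iff] at hs
        subst hs
        simp
    · intro z
      rw [hset, measure_iUnion]
      · rw [List.length_cons, nstep_succ']
        refine tsum_congr fun y => ?_
        have hd : Disjoint ({s | s.1.length ≤ w.length} : Set (List ℕ × V)) {(i :: w, y)} := by
          rw [Set.disjoint_singleton_right]
          simp
        have := (Indep_iff _ _ _).1 (indep_sig h hd) _ _ (ih1 y) (hY y z)
        rw [this, ih2]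
        congr 1
        exact h.law (i :: w) y z
      · intro a b hab
        rw [Function.onFun, Set.disjoint_left]
        rintro ω ⟨h1, _⟩ ⟨h2, _⟩
        exact hab (h1.symm.trans h2)
      · intro y
        exact MeasurableSet.inter (sig_le h _ _ (ih1 y)) (sig_le h _ _ (hY y z))

/-- Summation over words. -/
theorem tsum_words (m : ℕ) (F : ℕ → ℝ≥0∞) :
    ∑' w : List (Fin m), F w.length = ∑' n, (m : ℝ≥0∞) ^ n * F n := by
  rw [← List.equivSigmaTuple.symm.tsum_eq, ENNReal.tsum_sigma']
  refine tsum_congr fun n => ?_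
  have : ∀ f : Fin n → Fin m, F (List.equivSigmaTuple.symm ⟨n, f⟩).length = F n := by
    intro f
    simp [List.equivSigmaTuple]
  simp only [this]
  rw [tsum_fintype]
  simp

/-- Almost surely every vertex is visited by finitely many particles. -/
theorem finite_visits {Y : List ℕ × cc.Vtx → Ω → cc.Vtx} (h : Good ν cc.P Y) (o : cc.Vtx) :
    ∀ᵐ ω ∂ν, ∀ z, {w : List (Fin 1024) |
      pos (fun s => Y s ω) o (w.map Fin.val) = z}.Finite := by
  rw [ae_all_iff]
  intro z
  have h1 : ∑' w : List (Fin 1024), ν {ω | pos (fun s => Y s ω) o (w.map Fin.val) = z} ≠ ⊤ := by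
    have h2 : ∀ w : List (Fin 1024), ν {ω | pos (fun s => Y s ω) o (w.map Fin.val) = z}
        = nstep cc.P w.length o z := by
      intro w
      rw [(law_pos h o (w.map Fin.val)).2 z, List.length_map]
    simp_rw [h2]
    rw [tsum_words 1024 (fun n => nstep cc.P n o z)]
    exact potential_tsum o z
  exact ae_finite_setOfPred_mem h1

end Pool.Agent.Q171.BW
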