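import Pool.Agent.Q171.BW.Meet

/-!
# The blow up of a birth and death chain with integer conductances
-/

open MeasureTheory ProbabilityTheory Filter
open scoped ENNReal

namespace Pool.Agent.Q171.BW

set_option linter.unusedSimpArgs false
set_option linter.unusedVariables false

/-- Integer conductances: `e (j + 1)` is the conductance between the levels `j` and `j + 1`. -/
structure Cond where
  /-- the conductances -/
  e : ℕ → ℕ
  zero : e 0 = 0
  pos : ∀ j, 0 < e (j + 1)

namespace Cond

variable (c : Cond)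

/-- The size of a level. -/
def s (j : ℕ) : ℕ := c.e j + c.e (j + 1)

theorem s_pos (j : ℕ) : 0 < c.s j := Nat.add_pos_right _ (c.pos j)

theorem s_pos' (j : ℕ) : (0 : ℝ) < c.s j := by exact_mod_cast c.s_pos j

/-- Probability of moving up. -/
noncomputable def u (j : ℕ) : ℝ := c.e (j + 1) / c.s j

/-- Probability of moving down. -/
noncomputable def d (j : ℕ) : ℝ := c.e j / c.s j

theorem u_add_d (j : ℕ) : c.u j + c.d j = 1 := by
  have := c.s_pos' j
  unfold u d
  rw [← add_div, div_eq_one_iff_eq this.ne']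
  unfold s
  push_cast
  ring

theorem u_pos (j : ℕ) : 0 < c.u j := by
  have h1 : (0 : ℝ) < c.e (j + 1) := by exact_mod_cast c.pos j
  exact div_pos h1 (c.s_pos' j)

theorem d_nonneg (j : ℕ) : 0 ≤ c.d j := div_nonneg (Nat.cast_nonneg _) (c.s_pos' j).le

theorem d_pos (j : ℕ) : 0 < c.d (j + 1) := by
  have h1 : (0 : ℝ) < c.e (j + 1) := by exact_mod_cast c.pos j
  exact div_pos h1 (c.s_pos' _)

theorem d_zero : c.d 0 = 0 := by simp [d, c.zero]

/-- The vertices: `s j` vertices at the level `j`. -/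
abbrev Vtx : Type := Σ j : ℕ, Fin (c.s j)

/-- The average over a level. -/
noncomputable def avg (j : ℕ) (F : c.Vtx → ℝ) : ℝ := (∑ i : Fin (c.s j), F ⟨j, i⟩) / c.s j

/-- The kernel as an operator. -/
noncomputable def op (F : c.Vtx → ℝ) (x : c.Vtx) : ℝ :=
  c.u x.1 * c.avg (x.1 + 1) F + c.d x.1 * c.avg (x.1 - 1) F

/-- The transition probabilities. -/
noncomputable def pr (x y : c.Vtx) : ℝ :=
  if y.1 = x.1 + 1 then c.e y.1 / (c.s x.1 * c.s y.1)
  else if x.1 = y.1 + 1 then c.e x.1 / (c.s x.1 * c.s y.1) else 0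

theorem pr_nonneg (x y : c.Vtx) : 0 ≤ c.pr x y := by
  unfold pr
  split_ifs <;> positivity

theorem pr_symm (x y : c.Vtx) : c.pr x y = c.pr y x := by
  unfold pr
  by_cases h1 : y.1 = x.1 + 1
  · have h2 : ¬ x.1 = y.1 + 1 := by omega
    simp only [h1, if_true, h2, if_false]
    rw [if_neg (by omega)]
    ring
  · by_cases h2 : x.1 = y.1 + 1
    · simp only [h1, h2, if_false, if_true]
      rw [if_neg (by omega)]
      ring
    · simp [h1, h2]

theorem avg_nonneg (j : ℕ) {F : c.Vtx → ℝ} (hF : ∀ y, 0 ≤ F y) : 0 ≤ c.avg j F :=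
  div_nonneg (Finset.sum_nonneg fun i _ => hF _) (c.s_pos' j).le

theorem tsum_pr (x : c.Vtx) {F : c.Vtx → ℝ} (hF : ∀ y, 0 ≤ F y) :
    ∑' y, ENNReal.ofReal (c.pr x y) * ENNReal.ofReal (F y) = ENNReal.ofReal (c.op F x) := by
  rw [ENNReal.tsum_sigma']
  have h1 : ∀ j', ∑' i : Fin (c.s j'), ENNReal.ofReal (c.pr x ⟨j', i⟩) * ENNReal.ofReal (F ⟨j', i⟩)
      = ENNReal.ofReal (if j' = x.1 + 1 then c.u x.1 * c.avg j' F
          else if x.1 = j' + 1 then c.d x.1 * c.avg j' F else 0) := by
    intro j'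
    rw [tsum_fintype]
    simp_rw [← ENNReal.ofReal_mul (c.pr_nonneg x _)]
    rw [← ENNReal.ofReal_sum_of_nonneg
      (fun i _ => mul_nonneg (c.pr_nonneg x _) (hF _))]
    congr 1
    have hs := c.s_pos' j'
    have hs' := c.s_pos' x.1
    by_cases h2 : j' = x.1 + 1
    · subst h2
      simp only [pr, if_true, avg, u, Finset.mul_sum, Finset.sum_div]
      refine Finset.sum_congr rfl fun i _ => ?_
      field_simp
    · by_cases h3 : x.1 = j' + 1
      · simp only [pr, if_neg h2, if_pos h3, avg, d, Finset.mul_sum, Finset.sum_div]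
        refine Finset.sum_congr rfl fun i _ => ?_
        field_simp
      · simp [pr, h2, h3]
  simp_rw [h1]
  obtain ⟨j, i⟩ := x
  cases j with
  | zero =>
    rw [tsum_eq_single 1]
    · simp [op, c.d_zero]
    · intro j' hj'
      simp [hj']
  | succ k =>
    rw [tsum_eq_sum (s := {k, k + 2})]
    · rw [Finset.sum_pair (by omega)]
      simp only [op]
      rw [if_neg (by omega), if_pos trivial, if_pos trivial, add_comm,
        ← ENNReal.ofReal_add]
      · simp
      · exact mul_nonneg (c.u_pos _).le (c.avg_nonneg _ hF)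
      · exact mul_nonneg (c.d_nonneg _) (c.avg_nonneg _ hF)
    · intro j' hj'
      simp only [Finset.mem_insert, Finset.mem_singleton, not_or] at hj'
      dsimp only
      rw [if_neg (by omega), if_neg (by omega)]
      simp

theorem avg_one (j : ℕ) : c.avg j (fun _ => 1) = 1 := by
  have := c.s_pos' j
  simp [avg, this.ne']

/-- The kernel. -/
noncomputable def P (x : c.Vtx) : PMF c.Vtx :=
  ⟨fun y => ENNReal.ofReal (c.pr x y), by
    rw [ENNReal.summable.hasSum_iff]
    have h1 := c.tsum_pr x (F := fun _ => 1) (fun _ => zero_le_one)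
    simp only [ENNReal.ofReal_one, mul_one] at h1
    rw [h1]
    simp [op, avg_one, c.u_add_d]⟩

theorem P_apply (x y : c.Vtx) : c.P x y = ENNReal.ofReal (c.pr x y) := rfl

theorem tsum_P (x : c.Vtx) {F : c.Vtx → ℝ} (hF : ∀ y, 0 ≤ F y) :
    ∑' y, c.P x y * ENNReal.ofReal (F y) = ENNReal.ofReal (c.op F x) := c.tsum_pr x hF

theorem P_symm (x y : c.Vtx) : c.P x y = c.P y x := by
  rw [P_apply, P_apply, pr_symm]

theorem P_ne_zero (x y : c.Vtx) : c.P x y ≠ 0 ↔ (y.1 = x.1 + 1 ∨ x.1 = y.1 + 1) := by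
  rw [P_apply]
  have h1 := c.s_pos' x.1
  have h2 := c.s_pos' y.1
  unfold pr
  constructor
  · intro h
    by_contra hne
    push Not at hne
    rw [if_neg hne.1, if_neg hne.2] at h
    simp at h
  · rintro (h | h)
    · rw [if_pos h]
      have h3 : (0 : ℝ) < c.e y.1 := by
        rw [h]; exact_mod_cast c.pos _
      have : 0 < (c.e y.1 : ℝ) / (c.s x.1 * c.s y.1) := by positivity
      simpa using this
    · rw [if_neg (by omega), if_pos h]
      have h3 : (0 : ℝ) < c.e x.1 := by
        rw [h]; exact_mod_cast c.pos _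
      have : 0 < (c.e x.1 : ℝ) / (c.s x.1 * c.s y.1) := by positivity
      simpa using this

open scoped Classical in
/-- Indicator of a proposition. -/
noncomputable def bit (p : Prop) : ℝ := if p then 1 else 0

theorem bit_true {p : Prop} (h : p) : bit p = 1 := by simp [bit, h]

theorem bit_false {p : Prop} (h : ¬ p) : bit p = 0 := by simp [bit, h]

theorem bit_nonneg (p : Prop) : 0 ≤ bit p := by
  unfold bit; split_ifs <;> norm_num

/-- Expected numbers at the level of types. -/
noncomputable def gam (m : ℕ) (al : ℕ → ℕ → ℕ → Prop) (T : ℕ) : ℕ → ℕ → ℝ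
  | 0, _ => 0
  | n + 1, j => m * (c.u j * (bit (al n j (j + 1)) * (bit (j + 1 = T) + gam m al T n (j + 1)))
      + c.d j * (bit (al n j (j - 1)) * (bit (j - 1 = T) + gam m al T n (j - 1))))

/-- Bounds for factorial second moments at the level of types. -/
noncomputable def kap (m : ℕ) (al : ℕ → ℕ → ℕ → Prop) (T : ℕ) : ℕ → ℕ → ℝ
  | 0, _ => 0
  | n + 1, j => m * (c.u j * (bit (al n j (j + 1)) *
        (2 * bit (j + 1 = T) * c.gam m al T n (j + 1) + kap m al T n (j + 1)))
      + c.d j * (bit (al n j (j - 1)) *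
        (2 * bit (j - 1 = T) * c.gam m al T n (j - 1) + kap m al T n (j - 1))))
      + (c.gam m al T (n + 1) j) ^ 2

theorem gam_nonneg (m : ℕ) (al : ℕ → ℕ → ℕ → Prop) (T : ℕ) (n : ℕ) :
    ∀ j, 0 ≤ c.gam m al T n j := by
  induction n with
  | zero => intro j; simp [gam]
  | succ n ih =>
    intro j
    have := ih (j + 1)
    have := ih (j - 1)
    have := c.u_pos j
    have := c.d_nonneg j
    have := bit_nonneg (al n j (j + 1))
    have := bit_nonneg (al n j (j - 1))
    have := bit_nonneg (j + 1 = T)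
    have := bit_nonneg (j - 1 = T)
    simp only [gam]
    positivity

theorem kap_nonneg (m : ℕ) (al : ℕ → ℕ → ℕ → Prop) (T : ℕ) (n : ℕ) :
    ∀ j, 0 ≤ c.kap m al T n j := by
  induction n with
  | zero => intro j; simp [kap]
  | succ n ih =>
    intro j
    have := ih (j + 1)
    have := ih (j - 1)
    have := c.u_pos j
    have := c.d_nonneg j
    have := bit_nonneg (al n j (j + 1))
    have := bit_nonneg (al n j (j - 1))
    have := bit_nonneg (j + 1 = T)
    have := bit_nonneg (j - 1 = T)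
    have := c.gam_nonneg m al T n (j + 1)
    have := c.gam_nonneg m al T n (j - 1)
    simp only [kap]
    positivity

theorem avg_bit (j : ℕ) (z : c.Vtx) : c.avg j (fun y => bit (y = z)) = bit (j = z.1) / c.s z.1 := by
  obtain ⟨T, i₀⟩ := z
  unfold avg
  by_cases h : j = T
  · subst h
    congr 1
    rw [Finset.sum_eq_single i₀]
    · simp [bit]
    · intro i _ hi
      simp [bit, hi]
    · intro h; exact absurd (Finset.mem_univ _) h
  · have h1 : ∀ i : Fin (c.s j), bit ((⟨j, i⟩ : c.Vtx) = ⟨T, i₀⟩) = 0 := by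
      intro i
      refine bit_false ?_
      intro h2
      exact h (congrArg Sigma.fst h2)
    rw [Finset.sum_eq_zero (fun i _ => h1 i), bit_false h]
    simp

theorem avg_lin (j : ℕ) (A B : ℕ → ℝ) (F : c.Vtx → ℝ) :
    c.avg j (fun y => A y.1 * (F y + B y.1)) = A j * (c.avg j F + B j) := by
  have := c.s_pos' j
  unfold avg
  simp only [← Finset.mul_sum, Finset.sum_add_distrib, Finset.sum_const, Finset.card_univ,
    Fintype.card_fin, nsmul_eq_mul]
  field_simp

/-- Allowed moves, read on types. -/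
def lift (al : ℕ → ℕ → ℕ → Prop) : ℕ → c.Vtx → c.Vtx → Prop := fun n x y => al n x.1 y.1

theorem term_ofReal (a : c.Vtx → c.Vtx → Prop) (z x y : c.Vtx) {r : ℝ} (hr : 0 ≤ r) :
    term a z x y (ENNReal.ofReal r) = ENNReal.ofReal (bit (a x y) * (bit (y = z) + r)) := by
  classical
  unfold term bit
  split_ifs <;> simp [ENNReal.ofReal_add, hr]

theorem mn_eq (m : ℕ) (al : ℕ → ℕ → ℕ → Prop) (n : ℕ) (z : c.Vtx) :
    ∀ x, mn m (c.lift al) c.P n z x = ENNReal.ofReal (c.gam m al z.1 n x.1 / c.s z.1) := by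
  have hs := c.s_pos' z.1
  induction n with
  | zero => intro x; simp [mn, gam]
  | succ n ih =>
    intro x
    have hg := c.gam_nonneg m al z.1 n
    simp only [mn, ih]
    simp_rw [c.term_ofReal _ _ _ _ (div_nonneg (hg _) hs.le)]
    rw [c.tsum_P x (fun y => mul_nonneg (bit_nonneg _)
      (add_nonneg (bit_nonneg _) (div_nonneg (hg _) hs.le))),
      ← ENNReal.ofReal_natCast, ← ENNReal.ofReal_mul (Nat.cast_nonneg _)]
    congr 1
    simp only [op, lift]
    rw [c.avg_lin (x.1 + 1) (fun j' => bit (al n x.1 j')) (fun j' => c.gam m al z.1 n j' / c.s z.1)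
      (fun y => bit (y = z)),
      c.avg_lin (x.1 - 1) (fun j' => bit (al n x.1 j')) (fun j' => c.gam m al z.1 n j' / c.s z.1)
      (fun y => bit (y = z)), avg_bit, avg_bit]
    simp only [gam]
    field_simp

theorem term2_ofReal (a : c.Vtx → c.Vtx → Prop) (z₁ z₂ x y : c.Vtx) {r₁ r₂ r : ℝ}
    (h₁ : 0 ≤ r₁) (h₂ : 0 ≤ r₂) (hr : 0 ≤ r) :
    term2 a z₁ z₂ x y (ENNReal.ofReal r₁) (ENNReal.ofReal r₂) (ENNReal.ofReal r)
      = ENNReal.ofReal (bit (a x y) * (bit (y = z₁) * bit (y = z₂) + bit (y = z₁) * r₂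
        + bit (y = z₂) * r₁ + r)) := by
  classical
  unfold term2 bit
  split_ifs
  · simp only [one_mul, mul_one]
    rw [ENNReal.ofReal_add (by positivity) hr, ENNReal.ofReal_add (by positivity) h₁,
      ENNReal.ofReal_add zero_le_one h₂, ENNReal.ofReal_one]
  all_goals simp [ENNReal.ofReal_add, h₁, h₂, hr]

theorem term2_mono (a : c.Vtx → c.Vtx → Prop) (z₁ z₂ x y : c.Vtx) {r₁ r₂ r r' : ℝ≥0∞}
    (h : r ≤ r') : term2 a z₁ z₂ x y r₁ r₂ r ≤ term2 a z₁ z₂ x y r₁ r₂ r' := by
  unfold term2
  split_ifs <;> first | exact add_le_add le_rfl h | exact le_rfl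

theorem bit_mul_bit (y z₁ z₂ : c.Vtx) : bit (y = z₁) * bit (y = z₂)
    = bit (z₁ = z₂) * bit (y = z₁) := by
  by_cases h1 : y = z₁
  · subst h1
    rw [bit_true rfl]
    ring
  · rw [bit_false h1]
    ring

theorem sm_le (m : ℕ) (al : ℕ → ℕ → ℕ → Prop) (n T : ℕ) (z₁ z₂ : c.Vtx)
    (h₁ : z₁.1 = T) (h₂ : z₂.1 = T) : ∀ x, sm m (c.lift al) c.P n z₁ z₂ x
      ≤ ENNReal.ofReal (c.kap m al T n x.1 / c.s T ^ 2
        + bit (z₁ = z₂) * (c.gam m al T n x.1 / c.s T)) := by
  have hs := c.s_pos' T
  induction n with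
  | zero => intro x; simp [sm]
  | succ n ih =>
    intro x
    have hg := c.gam_nonneg m al T n
    have hk := c.kap_nonneg m al T n
    have hb := bit_nonneg (z₁ = z₂)
    have hnn : ∀ j, 0 ≤ c.kap m al T n j / c.s T ^ 2
        + bit (z₁ = z₂) * (c.gam m al T n j / c.s T) := fun j =>
      add_nonneg (div_nonneg (hk j) (by positivity)) (mul_nonneg hb (div_nonneg (hg j) hs.le))
    have hgs : ∀ j, 0 ≤ c.gam m al T n j / c.s T := fun j => div_nonneg (hg j) hs.le
    have hmn : ∀ n z y, z.1 = T → mn m (c.lift al) c.P n z y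
        = ENNReal.ofReal (c.gam m al T n y.1 / c.s T) := by
      intro n z y hz
      rw [c.mn_eq m al n z y, hz]
    simp only [sm]
    rw [hmn (n + 1) z₁ x h₁, hmn (n + 1) z₂ x h₂]
    have step1 : ∑' y, c.P x y * term2 (c.lift al n) z₁ z₂ x y
        (mn m (c.lift al) c.P n z₁ y) (mn m (c.lift al) c.P n z₂ y)
        (sm m (c.lift al) c.P n z₁ z₂ y)
        ≤ ∑' y, c.P x y * ENNReal.ofReal (bit (al n x.1 y.1) * ((bit (z₁ = z₂) * bit (y = z₁)
          + bit (y = z₁) * (c.gam m al T n y.1 / c.s T)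
          + bit (y = z₂) * (c.gam m al T n y.1 / c.s T)) + (c.kap m al T n y.1 / c.s T ^ 2
            + bit (z₁ = z₂) * (c.gam m al T n y.1 / c.s T)))) := by
      refine ENNReal.tsum_le_tsum fun y => ?_
      gcongr
      rw [hmn n z₁ y h₁, hmn n z₂ y h₂]
      refine (c.term2_mono _ _ _ _ _ (ih y)).trans ?_
      rw [c.term2_ofReal _ _ _ _ _ (hgs _) (hgs _) (hnn _), bit_mul_bit]
      rfl
    refine (add_le_add_left (mul_le_mul_right step1 _) _).trans ?_
    rw [c.tsum_P x, ← ENNReal.ofReal_natCast, ← ENNReal.ofReal_mul (Nat.cast_nonneg _),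
      ← ENNReal.ofReal_mul (div_nonneg (c.gam_nonneg _ _ _ _ _) hs.le), ← ENNReal.ofReal_add]
    · refine le_of_eq ?_
      congr 1
      simp only [op]
      have key : ∀ j', c.avg j' (fun y => bit (al n x.1 y.1) * ((bit (z₁ = z₂) * bit (y = z₁)
          + bit (y = z₁) * (c.gam m al T n y.1 / c.s T)
          + bit (y = z₂) * (c.gam m al T n y.1 / c.s T)) + (c.kap m al T n y.1 / c.s T ^ 2
            + bit (z₁ = z₂) * (c.gam m al T n y.1 / c.s T))))
          = bit (al n x.1 j') * ((bit (z₁ = z₂) * (bit (j' = T) / c.s T)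
            + 2 * (bit (j' = T) / c.s T) * (c.gam m al T n j' / c.s T))
            + (c.kap m al T n j' / c.s T ^ 2
            + bit (z₁ = z₂) * (c.gam m al T n j' / c.s T))) := by
        intro j'
        rw [c.avg_lin j' (fun j' => bit (al n x.1 j')) (fun j' => c.kap m al T n j' / c.s T ^ 2
            + bit (z₁ = z₂) * (c.gam m al T n j' / c.s T))
          (fun y => bit (z₁ = z₂) * bit (y = z₁)
          + bit (y = z₁) * (c.gam m al T n y.1 / c.s T)
          + bit (y = z₂) * (c.gam m al T n y.1 / c.s T))]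
        congr 2
        have b1 := c.avg_bit j' z₁
        have b2 := c.avg_bit j' z₂
        rw [h₁] at b1
        rw [h₂] at b2
        unfold avg at b1 b2 ⊢
        simp only [Finset.sum_add_distrib, ← Finset.mul_sum, ← Finset.sum_mul, add_div]
        rw [mul_div_assoc, b1, mul_div_right_comm, b1, mul_div_right_comm, b2]
        ring
      rw [key, key]
      simp only [kap, gam]
      field_simp
      ring
    · refine mul_nonneg (Nat.cast_nonneg _) ?_
      unfold op
      refine add_nonneg (mul_nonneg (c.u_pos _).le (c.avg_nonneg _ fun y => ?_))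
        (mul_nonneg (c.d_nonneg _) (c.avg_nonneg _ fun y => ?_))
      all_goals
        have := hgs y.1
        have := hnn y.1
        have := bit_nonneg (al n x.1 y.1)
        have := bit_nonneg (y = z₁)
        have := bit_nonneg (y = z₂)
        positivity
    · exact mul_nonneg (div_nonneg (c.gam_nonneg _ _ _ _ _) hs.le)
        (div_nonneg (c.gam_nonneg _ _ _ _ _) hs.le)
    · intro y
      have := hgs y.1
      have := hnn y.1
      have := bit_nonneg (al n x.1 y.1)
      have := bit_nonneg (y = z₁)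
      have := bit_nonneg (y = z₂)
      positivity

end Cond

end Pool.Agent.Q171.BW
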