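import Pool.Agent.Q171.BW.Count

/-!
# Meeting of two independent families of descendants
-/

open MeasureTheory ProbabilityTheory Filter
open scoped ENNReal

namespace Pool.Agent.Q171.BW

set_option linter.unusedSectionVars false
set_option linter.unusedVariables false

variable {V : Type} {Ω : Type} [mΩ : MeasurableSpace Ω] {ν : Measure Ω} [IsProbabilityMeasure ν]
  [MeasurableSpace V] [DiscreteMeasurableSpace V] [Countable V]

/-- The descendants of `v` and of `v'` do not meet. -/
def NoMeet (m : ℕ) (Y : List ℕ × V → Ω → V) (v v' : List ℕ) (x x' : V) : Set Ω :=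
  {ω | ∀ w w', (∀ i ∈ w, i < m) → (∀ i ∈ w', i < m) →
    dpos (fun s => Y s ω) v x w ≠ dpos (fun s => Y s ω) v' x' w'}

theorem meas_dpos {P : V → PMF V} {Y : List ℕ × V → Ω → V} (h : Good ν P Y) (v : List ℕ)
    (x : V) (w : List ℕ) : Measurable[sig Y (Below v)] (fun ω => dpos (fun s => Y s ω) v x w) := by
  induction w with
  | nil => exact measurable_const
  | cons i w ih =>
    refine meas_subst ih (H := fun y ω => Y (i :: (w ++ v), y) ω) fun y => ?_
    exact meas_sig ⟨i :: w, by simp, by simp⟩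

theorem meas_noMeet {m : ℕ} {P : V → PMF V} {Y : List ℕ × V → Ω → V} (h : Good ν P Y)
    (v v' : List ℕ) (x x' : V) :
    MeasurableSet[sig Y (Below v ∪ Below v')] (NoMeet m Y v v' x x') := by
  have h1 : NoMeet m Y v v' x x' = ⋂ w : List ℕ, ⋂ w' : List ℕ,
      ⋂ _ : ∀ i ∈ w, i < m, ⋂ _ : ∀ i ∈ w', i < m,
      {ω | dpos (fun s => Y s ω) v x w = dpos (fun s => Y s ω) v' x' w'}ᶜ := by
    ext ω
    simp [NoMeet]
  rw [h1]
  refine MeasurableSet.iInter fun w => MeasurableSet.iInter fun w' =>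
    MeasurableSet.iInter fun _ => MeasurableSet.iInter fun _ => MeasurableSet.compl ?_
  have h2 : {ω | dpos (fun s => Y s ω) v x w = dpos (fun s => Y s ω) v' x' w'}
      = ⋃ z : V, (fun ω => dpos (fun s => Y s ω) v x w) ⁻¹' {z} ∩
        (fun ω => dpos (fun s => Y s ω) v' x' w') ⁻¹' {z} := by
    ext ω
    simp [eq_comm]
  rw [h2]
  refine MeasurableSet.iUnion fun z => MeasurableSet.inter ?_ ?_
  · exact ((meas_dpos h v x w).mono (sig_mono Set.subset_union_left) le_rfl)
      (MeasurableSet.of_discrete (s := {z}))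
  · exact ((meas_dpos h v' x' w').mono (sig_mono Set.subset_union_right) le_rfl)
      (MeasurableSet.of_discrete (s := {z}))

/-- Substituting an independent countably valued variable in a family of events. -/
theorem subst_le {T : Type} [Countable T] {P : V → PMF V} {Y : List ℕ × V → Ω → V}
    (h : Good ν P Y) {S₁ S₂ : Set (List ℕ × V)} (hd : Disjoint S₁ S₂) {Z : Ω → T}
    (hZ : ∀ t, MeasurableSet[sig Y S₁] {ω | Z ω = t}) {E : T → Set Ω}
    (hE : ∀ t, MeasurableSet[sig Y S₂] (E t)) {p : ℝ≥0∞} (hp : ∀ t, ν (E t) ≤ p) :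
    ν {ω | ω ∈ E (Z ω)} ≤ p := by
  have h1 : {ω | ω ∈ E (Z ω)} = ⋃ t, {ω | Z ω = t} ∩ E t := by
    ext ω
    simp
  have hm : ∀ t, MeasurableSet {ω | Z ω = t} := fun t => sig_le h S₁ _ (hZ t)
  have h2 : ∑' t, ν {ω | Z ω = t} = 1 := by
    rw [← measure_iUnion _ hm]
    · have : (⋃ t, {ω | Z ω = t}) = Set.univ := by
        ext ω; simp
      rw [this]
      simp
    · intro s t hst
      rw [Function.onFun, Set.disjoint_left]
      intro ω h1 h2
      exact hst (h1.symm.trans h2)
  calc ν {ω | ω ∈ E (Z ω)} ≤ ∑' t, ν ({ω | Z ω = t} ∩ E t) := by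
        rw [h1]; exact measure_iUnion_le _
    _ ≤ ∑' t, ν {ω | Z ω = t} * p := by
        refine ENNReal.tsum_le_tsum fun t => ?_
        have := (Indep_iff _ _ _).1 (indep_sig h hd) _ _ (hZ t) (hE t)
        rw [this]
        gcongr
        exact hp t
    _ = p := by rw [ENNReal.tsum_mul_right, h2, one_mul]

theorem notMem_below_of_NC {p q : List ℕ} (h : p = q ∨ NC p q) (x : V) :
    (p, x) ∉ (Below q : Set (List ℕ × V)) := by
  rcases h with rfl | h
  · exact notMem_below p x
  · intro h1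
    exact h.2 (below_sub q h1)

theorem below_disj {p q : List ℕ} (h : NC p q) :
    Disjoint (Below p : Set (List ℕ × V)) (Below q) :=
  h.disj.mono (below_sub p) (below_sub q)

theorem NC.symm {p q : List ℕ} (h : NC p q) : NC q p := ⟨h.2, h.1⟩

/-- The zero one law: a uniform bound below one for the probability of not meeting
gives that this probability vanishes. -/
theorem noMeet_zero {m : ℕ} (hm : 2 ≤ m) {P : V → PMF V} {Y : List ℕ × V → Ω → V}
    (h : Good ν P Y) {p : ℝ≥0∞} (hp : p < 1)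
    (hb : ∀ v v' x x', NC v v' → ν (NoMeet m Y v v' x x') ≤ p) :
    ∀ v v' x x', NC v v' → ν (NoMeet m Y v v' x x') = 0 := by
  set g : ℝ≥0∞ := ⨆ (v : List ℕ) (v' : List ℕ) (x : V) (x' : V) (_ : NC v v'),
    ν (NoMeet m Y v v' x x') with hg
  have hle : ∀ v v' x x', NC v v' → ν (NoMeet m Y v v' x x') ≤ g := by
    intro v v' x x' hv
    exact le_iSup_of_le v (le_iSup_of_le v' (le_iSup_of_le x (le_iSup_of_le x'
      (le_iSup_of_le hv le_rfl))))
  have hgp : g ≤ p := iSup_le fun v => iSup_le fun v' => iSup_le fun x => iSup_le fun x' =>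
    iSup_le fun hv => hb v v' x x' hv
  have hgg : g ≤ g * g := by
    refine iSup_le fun v => iSup_le fun v' => iSup_le fun x => iSup_le fun x' =>
      iSup_le fun hv => ?_
    have hnc : ∀ i j, NC (i :: v) (j :: v') := fun i j => hv.cons i j
    set Z : Ω → (V × V) × (V × V) := fun ω =>
      ((Y (0 :: v, x) ω, Y (0 :: v', x') ω), (Y (1 :: v, x) ω, Y (1 :: v', x') ω)) with hZ
    set S₁ : Set (List ℕ × V) := {(0 :: v, x), (0 :: v', x'), (1 :: v, x), (1 :: v', x')}
      with hS₁
    set A : Set (List ℕ × V) := Below (0 :: v) ∪ Below (0 :: v')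
    set B : Set (List ℕ × V) := Below (1 :: v) ∪ Below (1 :: v')
    have h01 : NC (0 :: v) (1 :: v) := NC.of_ne (by norm_num)
    have h01' : NC (0 :: v') (1 :: v') := NC.of_ne (by norm_num)
    have hAB : Disjoint A B := by
      rw [Set.disjoint_union_left, Set.disjoint_union_right, Set.disjoint_union_right]
      exact ⟨⟨below_disj h01, below_disj (hnc 0 1)⟩,
        ⟨(below_disj (hnc 1 0)).symm, below_disj h01'⟩⟩
    have hd : Disjoint S₁ (A ∪ B) := by
      rw [Set.disjoint_left]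
      intro s hs
      simp only [hS₁, Set.mem_insert_iff, Set.mem_singleton_iff] at hs
      rintro ((h1 | h1) | (h1 | h1)) <;> rcases hs with rfl | rfl | rfl | rfl <;>
        revert h1
      · exact notMem_below_of_NC (Or.inl rfl) _
      · exact notMem_below_of_NC (Or.inr (hnc 0 0).symm) _
      · exact notMem_below_of_NC (Or.inr h01.symm) _
      · exact notMem_below_of_NC (Or.inr (hnc 0 1).symm) _
      · exact notMem_below_of_NC (Or.inr (hnc 0 0)) _
      · exact notMem_below_of_NC (Or.inl rfl) _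
      · exact notMem_below_of_NC (Or.inr (hnc 1 0)) _
      · exact notMem_below_of_NC (Or.inr h01'.symm) _
      · exact notMem_below_of_NC (Or.inr h01) _
      · exact notMem_below_of_NC (Or.inr (hnc 1 0).symm) _
      · exact notMem_below_of_NC (Or.inl rfl) _
      · exact notMem_below_of_NC (Or.inr (hnc 1 1).symm) _
      · exact notMem_below_of_NC (Or.inr (hnc 0 1)) _
      · exact notMem_below_of_NC (Or.inr h01') _
      · exact notMem_below_of_NC (Or.inr (hnc 1 1)) _
      · exact notMem_below_of_NC (Or.inl rfl) _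
    set E : (V × V) × (V × V) → Set Ω := fun t =>
      NoMeet m Y (0 :: v) (0 :: v') t.1.1 t.1.2 ∩ NoMeet m Y (1 :: v) (1 :: v') t.2.1 t.2.2
      with hE
    have hsub : NoMeet m Y v v' x x' ⊆ {ω | ω ∈ E (Z ω)} := by
      intro ω hω
      constructor
      · intro w w' hw hw'
        have := hω (w ++ [0]) (w' ++ [0]) (by
          intro i hi
          rcases List.mem_append.1 hi with hi | hi
          · exact hw i hi
          · simp at hi; omega) (by
          intro i hi
          rcases List.mem_append.1 hi with hi | hi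
          · exact hw' i hi
          · simp at hi; omega)
        rw [dpos_append, dpos_append] at this
        exact this
      · intro w w' hw hw'
        have := hω (w ++ [1]) (w' ++ [1]) (by
          intro i hi
          rcases List.mem_append.1 hi with hi | hi
          · exact hw i hi
          · simp at hi; omega) (by
          intro i hi
          rcases List.mem_append.1 hi with hi | hi
          · exact hw' i hi
          · simp at hi; omega)
        rw [dpos_append, dpos_append] at this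
        exact this
    refine (measure_mono hsub).trans ?_
    refine subst_le h hd (Z := Z) (E := E) ?_ ?_ ?_
    · rintro ⟨⟨a, b⟩, ⟨c, d⟩⟩
      have e1 : {ω | Z ω = ((a, b), (c, d))} = (Y (0 :: v, x)) ⁻¹' {a} ∩ (Y (0 :: v', x')) ⁻¹' {b}
          ∩ ((Y (1 :: v, x)) ⁻¹' {c} ∩ (Y (1 :: v', x')) ⁻¹' {d}) := by
        ext ω
        simp [hZ, Prod.ext_iff]
      rw [e1]
      refine MeasurableSet.inter (MeasurableSet.inter ?_ ?_) (MeasurableSet.inter ?_ ?_)
      · exact meas_sig (by simp [hS₁]) (MeasurableSet.of_discrete (s := {a}))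
      · exact meas_sig (by simp [hS₁]) (MeasurableSet.of_discrete (s := {b}))
      · exact meas_sig (by simp [hS₁]) (MeasurableSet.of_discrete (s := {c}))
      · exact meas_sig (by simp [hS₁]) (MeasurableSet.of_discrete (s := {d}))
    · intro t
      refine MeasurableSet.inter ?_ ?_
      · exact sig_mono Set.subset_union_left _ (meas_noMeet h _ _ _ _)
      · exact sig_mono Set.subset_union_right _ (meas_noMeet h _ _ _ _)
    · intro t
      have := (Indep_iff _ _ _).1 (indep_sig h hAB) _ _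
        (meas_noMeet (m := m) h (0 :: v) (0 :: v') t.1.1 t.1.2)
        (meas_noMeet (m := m) h (1 :: v) (1 :: v') t.2.1 t.2.2)
      rw [hE, this]
      exact mul_le_mul' (hle _ _ _ _ (hnc 0 0)) (hle _ _ _ _ (hnc 1 1))
  have hg0 : g = 0 := by
    by_contra hne
    have hlt : g < 1 := hgp.trans_lt hp
    have : g * g < g * 1 := by
      refine (ENNReal.mul_lt_mul_iff_right hne (ne_top_of_lt hlt)).2 hlt
    rw [mul_one] at this
    exact absurd hgg (not_le.2 this)
  intro v v' x x' hv
  exact le_antisymm ((hle v v' x x' hv).trans hg0.le) (by simp)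

/-- The second moment method. -/
theorem noMeet_le {m : ℕ} {a a' : ℕ → V → V → Prop} {P : V → PMF V}
    {Y : List ℕ × V → Ω → V} (h : Good ν P Y) (n n' : ℕ) (Zs : Finset V) {v v' : List ℕ}
    (hv : NC v v') (x x' : V) {e : ℝ≥0∞} (he0 : e ≠ 0) (he1 : e ≠ ⊤)
    (hmean : ∑ z ∈ Zs, mn m a P n z x * mn m a' P n' z x' = e)
    (hsec : ∑ z₁ ∈ Zs, ∑ z₂ ∈ Zs, sm m a P n z₁ z₂ x * sm m a' P n' z₁ z₂ x' ≤ 16 * e ^ 2) :
    ν (NoMeet m Y v v' x x') ≤ 15 / 16 := by
  classical
  set F : V → Ω → ℝ≥0∞ := fun z => cnt m a Y n z v x with hF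
  set F' : V → Ω → ℝ≥0∞ := fun z => cnt m a' Y n' z v' x' with hF'
  have hFm : ∀ z, Measurable[sig Y (Below v)] (F z) := fun z => meas_cnt h n z v x
  have hFm' : ∀ z, Measurable[sig Y (Below v')] (F' z) := fun z => meas_cnt h n' z v' x'
  have hFM : ∀ z, Measurable (F z) := fun z => (hFm z).mono (sig_le h _) le_rfl
  have hFM' : ∀ z, Measurable (F' z) := fun z => (hFm' z).mono (sig_le h _) le_rfl
  set W : Ω → ℝ≥0∞ := fun ω => ∑ z ∈ Zs, F z ω * F' z ω with hW
  have hdis : Disjoint (Below v : Set (List ℕ × V)) (Below v') := below_disj hv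
  have hWm : Measurable W := Finset.measurable_fun_sum _ fun z _ => (hFM z).mul (hFM' z)
  have hEW : ∫⁻ ω, W ω ∂ν = e := by
    have hprod : ∀ z, Measurable (fun ω => F z ω * F' z ω) := fun z => (hFM z).mul (hFM' z)
    rw [← hmean]
    have e0 : ∫⁻ ω, W ω ∂ν = ∑ z ∈ Zs, ∫⁻ ω, F z ω * F' z ω ∂ν :=
      lintegral_finsetSum _ (fun z _ => hprod z)
    rw [e0]
    refine Finset.sum_congr rfl fun z _ => ?_
    rw [lint_mul h hdis (hFm z) (hFm' z), lint_cnt h, lint_cnt h]
  have hEW2 : ∫⁻ ω, W ω ^ 2 ∂ν ≤ 16 * e ^ 2 := by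
    refine le_trans ?_ hsec
    have e1 : ∀ ω, W ω ^ 2 = ∑ z₁ ∈ Zs, ∑ z₂ ∈ Zs, (F z₁ ω * F z₂ ω) * (F' z₁ ω * F' z₂ ω) := by
      intro ω
      rw [sq, hW, Finset.sum_mul_sum]
      refine Finset.sum_congr rfl fun z₁ _ => Finset.sum_congr rfl fun z₂ _ => ?_
      ring
    simp_rw [e1]
    have hmm : ∀ z₁ z₂, Measurable (fun ω => (F z₁ ω * F z₂ ω) * (F' z₁ ω * F' z₂ ω)) :=
      fun z₁ z₂ => ((hFM z₁).mul (hFM z₂)).mul ((hFM' z₁).mul (hFM' z₂))
    rw [lintegral_finsetSum _ (fun i _ => Finset.measurable_fun_sum _ fun j _ => hmm i j)]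
    refine Finset.sum_le_sum fun z₁ _ => ?_
    rw [lintegral_finsetSum _ (fun j _ => hmm z₁ j)]
    refine Finset.sum_le_sum fun z₂ _ => ?_
    rw [lint_mul h hdis (f := fun ω => F z₁ ω * F z₂ ω) (g := fun ω => F' z₁ ω * F' z₂ ω)
      ((hFm z₁).mul (hFm z₂)) ((hFm' z₁).mul (hFm' z₂))]
    exact mul_le_mul' (lint_cnt_mul h n z₁ z₂ v x) (lint_cnt_mul h n' z₁ z₂ v' x')
  have hW0 : ∀ ω ∈ NoMeet m Y v v' x x', W ω = 0 := by
    intro ω hω
    refine Finset.sum_eq_zero fun z _ => ?_
    by_contra hne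
    have h1 : F z ω ≠ 0 := left_ne_zero_of_mul hne
    have h2 : F' z ω ≠ 0 := right_ne_zero_of_mul hne
    obtain ⟨w, hw, hw1⟩ := exists_of_cnt ω n z v x h1
    obtain ⟨w', hw', hw1'⟩ := exists_of_cnt ω n' z v' x' h2
    exact hω w w' hw hw' (hw1.trans hw1'.symm)
  set t : ℝ≥0∞ := (16 * e)⁻¹ with ht
  have h16 : (16 * e : ℝ≥0∞) ≠ 0 := mul_ne_zero (by norm_num) he0
  have h16' : (16 * e : ℝ≥0∞) ≠ ⊤ := ENNReal.mul_ne_top (by norm_num) he1
  have hte : t * (16 * e) = 1 := ENNReal.inv_mul_cancel h16 h16'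
  have hpt : ∀ ω, (NoMeet m Y v v' x x').indicator 1 ω + 2 * t * W ω ≤ 1 + t ^ 2 * W ω ^ 2 := by
    intro ω
    by_cases hω : ω ∈ NoMeet m Y v v' x x'
    · rw [Set.indicator_of_mem hω, hW0 ω hω]
      simp
    · rw [Set.indicator_of_notMem hω, zero_add]
      by_cases htW : t * W ω = ⊤
      · have : t ^ 2 * W ω ^ 2 = ⊤ := by
          rw [← mul_pow, htW]
          simp
        rw [this]
        simp
      · obtain ⟨r, hr⟩ : ∃ r : NNReal, (r : ℝ≥0∞) = t * W ω := ⟨(t * W ω).toNNReal,
          ENNReal.coe_toNNReal htW⟩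
        rw [mul_assoc, ← mul_pow, ← hr]
        have : 2 * r ≤ 1 + r ^ 2 := by
          rw [← NNReal.coe_le_coe]
          push_cast
          nlinarith [sq_nonneg ((r : ℝ) - 1)]
        exact_mod_cast this
  have hmeasN : MeasurableSet (NoMeet m Y v v' x x') := sig_le h _ _ (meas_noMeet h v v' x x')
  have hint : ν (NoMeet m Y v v' x x') + 2 * t * e ≤ 1 + t ^ 2 * (16 * e ^ 2) := by
    have h1 := lintegral_mono (μ := ν) hpt
    rw [lintegral_add_left (by exact measurable_one.indicator hmeasN),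
      lintegral_indicator_one hmeasN,
      lintegral_const_mul _ hWm, hEW, lintegral_add_left measurable_const,
      lintegral_const_mul _ (hWm.pow_const 2)] at h1
    simp only [lintegral_const, measure_univ, mul_one] at h1
    refine h1.trans ?_
    gcongr
  have e3 : t ^ 2 * (16 * e ^ 2) = t * e := by
    calc t ^ 2 * (16 * e ^ 2) = t * (16 * e) * (t * e) := by ring
      _ = t * e := by rw [hte, one_mul]
  have e4 : t * e = 1 / 16 := by
    rw [ht, ENNReal.mul_inv (Or.inl (by norm_num)) (Or.inl (by norm_num)), mul_assoc,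
      ENNReal.inv_mul_cancel he0 he1, mul_one, one_div]
  rw [e3, mul_assoc, e4] at hint
  have hfin : ν (NoMeet m Y v v' x x') ≠ ⊤ := measure_ne_top _ _
  obtain ⟨r, hr⟩ : ∃ r : NNReal, (r : ℝ≥0∞) = ν (NoMeet m Y v v' x x') :=
    ⟨_, ENNReal.coe_toNNReal hfin⟩
  rw [← hr] at hint ⊢
  have h2 : ((r + 2 * (1 / 16) : NNReal) : ℝ≥0∞) ≤ ((1 + 1 / 16 : NNReal) : ℝ≥0∞) := by
    push_cast
    convert hint using 2 <;> norm_num
  have h3 : r + 2 * (1 / 16) ≤ (1 + 1 / 16 : NNReal) := by exact_mod_cast h2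
  have h4 : r ≤ (15 / 16 : NNReal) := by
    rw [← NNReal.coe_le_coe] at h3 ⊢
    push_cast at h3 ⊢
    linarith
  have h5 : (r : ℝ≥0∞) ≤ ((15 / 16 : NNReal) : ℝ≥0∞) := by exact_mod_cast h4
  refine h5.trans (le_of_eq ?_)
  rw [ENNReal.coe_div (by norm_num)]
  norm_num

end Pool.Agent.Q171.BW
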