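import Pool.Agent.Q171.BW.Kernel

/-!
# The conductances
-/

open scoped ENNReal

namespace Pool.Agent.Q171.BW

/-- Auxiliary sequence. -/
def aa : ℕ → ℕ
  | 0 => 1
  | k + 1 => aa k * ((2 ^ 20 - 1) * 65536 ^ (k + 1) + 2 ^ 20) * (2 ^ 28 * 65536 ^ (k + 1))

/-- Conductances inside the blocks. -/
def cA (k : ℕ) : ℕ := 65536 ^ (k + 1) * aa k

/-- Conductances between the blocks. -/
def cB (k : ℕ) : ℕ := aa k * ((2 ^ 20 - 1) * 65536 ^ (k + 1) + 2 ^ 20)

theorem aa_pos (k : ℕ) : 0 < aa k := by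
  induction k with
  | zero => simp [aa]
  | succ k ih =>
    simp only [aa]
    positivity

theorem cA_pos (k : ℕ) : 0 < cA k := Nat.mul_pos (by positivity) (aa_pos k)

theorem cB_pos (k : ℕ) : 0 < cB k := Nat.mul_pos (aa_pos k) (by positivity)

/-- The conductances. -/
def ee (j : ℕ) : ℕ := if j = 0 then 0 else if j % 2 = 1 then cA (j / 2) else cB (j / 2 - 1)

theorem ee_odd (k : ℕ) : ee (2 * k + 1) = cA k := by
  unfold ee
  rw [if_neg (by omega), if_pos (by omega)]
  congr 1
  omega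

theorem ee_even (k : ℕ) : ee (2 * k + 2) = cB k := by
  unfold ee
  rw [if_neg (by omega), if_neg (by omega)]
  congr 1
  omega

/-- The chain. -/
def cc : Cond where
  e := ee
  zero := by simp [ee]
  pos := by
    intro j
    rcases Nat.even_or_odd' j with ⟨k, rfl | rfl⟩
    · rw [ee_odd]; exact cA_pos k
    · rw [ee_even]; exact cB_pos k

/-- The small parameter of a block. -/
noncomputable def eta (k : ℕ) : ℝ := 1 / 65536 ^ (k + 1)

theorem eta_pos (k : ℕ) : 0 < eta k := by unfold eta; positivity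

theorem eta_succ (k : ℕ) : eta (k + 1) = eta k / 65536 := by
  unfold eta
  rw [pow_succ]
  field_simp

theorem eta_le (k : ℕ) : eta k ≤ 1 / 65536 := by
  induction k with
  | zero => simp [eta]
  | succ k ih =>
    rw [eta_succ]
    have := eta_pos k
    linarith

theorem eta_anti {k l : ℕ} (h : k ≤ l) : eta l ≤ eta k := by
  induction l, h using Nat.le_induction with
  | base => exact le_rfl
  | succ l _ ih =>
    rw [eta_succ]
    have := eta_pos l
    linarith

theorem cA_cast (k : ℕ) : (cA k : ℝ) = aa k / eta k := by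
  unfold cA eta
  push_cast
  field_simp

theorem cB_cast (k : ℕ) : (cB k : ℝ) = aa k * ((2 ^ 20 - 1) / eta k + 2 ^ 20) := by
  unfold cB eta
  push_cast [Nat.cast_sub]
  field_simp
  ring

theorem cA_succ (k : ℕ) : (cA (k + 1) : ℝ) = cB k * 2 ^ 28 / (eta k * eta (k + 1)) := by
  unfold cA cB eta
  simp only [aa]
  push_cast
  field_simp
  ring

/-- Up and down probabilities in even and odd types. -/
noncomputable def u0 (k : ℕ) : ℝ := cc.u (2 * k)
/-- see above -/
noncomputable def d0 (k : ℕ) : ℝ := cc.d (2 * k)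
/-- see above -/
noncomputable def u1 (k : ℕ) : ℝ := cc.u (2 * k + 1)
/-- see above -/
noncomputable def d1 (k : ℕ) : ℝ := cc.d (2 * k + 1)

theorem s_odd (k : ℕ) : (cc.s (2 * k + 1) : ℝ) = 2 ^ 20 * cA k * (1 + eta k) := by
  have h1 : cc.s (2 * k + 1) = cA k + cB k := by
    show ee (2 * k + 1) + ee (2 * k + 2) = _
    rw [ee_odd, ee_even]
  rw [h1]
  push_cast
  rw [cA_cast, cB_cast]
  have := eta_pos k
  field_simp
  ring

theorem s_even_succ (k : ℕ) : (cc.s (2 * (k + 1)) : ℝ) = cB k + cA (k + 1) := by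
  have h1 : cc.s (2 * (k + 1)) = cB k + cA (k + 1) := by
    show ee (2 * k + 2) + ee (2 * (k + 1) + 1) = _
    rw [ee_odd, ee_even]
  rw [h1]
  push_cast
  ring

theorem d1_eq (k : ℕ) : d1 k = 1 / (2 ^ 20 * (1 + eta k)) := by
  have h1 : d1 k = (cA k : ℝ) / cc.s (2 * k + 1) := by
    show (ee (2 * k + 1) : ℝ) / cc.s (2 * k + 1) = _
    rw [ee_odd]
  rw [h1, s_odd]
  have : (0 : ℝ) < cA k := by exact_mod_cast cA_pos k
  have := eta_pos k
  field_simp

theorem u1_eq (k : ℕ) : u1 k = 1 - d1 k := by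
  have := cc.u_add_d (2 * k + 1)
  unfold u1 d1
  linarith

theorem u0_eq (k : ℕ) : u0 k = 1 - d0 k := by
  have := cc.u_add_d (2 * k)
  unfold u0 d0
  linarith

theorem d0_zero : d0 0 = 0 := cc.d_zero

theorem d0_succ (k : ℕ) : d0 (k + 1) ≤ eta k * eta (k + 1) / 2 ^ 28 := by
  have h1 : d0 (k + 1) = (cB k : ℝ) / cc.s (2 * (k + 1)) := by
    show (ee (2 * k + 2) : ℝ) / cc.s (2 * (k + 1)) = _
    rw [ee_even]
  rw [h1, s_even_succ, cA_succ]
  have h2 : (0 : ℝ) < cB k := by exact_mod_cast cB_pos k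
  have := eta_pos k
  have := eta_pos (k + 1)
  rw [div_le_iff₀ (by positivity)]
  have h3 : eta k * eta (k + 1) / 2 ^ 28 * (↑(cB k) + ↑(cB k) * 2 ^ 28 / (eta k * eta (k + 1)))
      = cB k + eta k * eta (k + 1) / 2 ^ 28 * cB k := by
    field_simp
    ring
  rw [h3]
  have : 0 ≤ eta k * eta (k + 1) / 2 ^ 28 * cB k := by positivity
  linarith

theorem d0_nonneg (k : ℕ) : 0 ≤ d0 k := cc.d_nonneg _

theorem d0_le (k : ℕ) : d0 k ≤ eta k / 2 ^ 28 := by
  cases k with
  | zero => rw [d0_zero]; have := eta_pos 0; positivity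
  | succ k =>
    refine (d0_succ k).trans ?_
    have h1 := eta_pos (k + 1)
    have h2 : eta k ≤ 1 := (eta_le k).trans (by norm_num)
    have : eta k * eta (k + 1) ≤ 1 * eta (k + 1) := mul_le_mul_of_nonneg_right h2 h1.le
    linarith

theorem d1_pos (k : ℕ) : 0 < d1 k := cc.d_pos _

theorem d1_le (k : ℕ) : d1 k ≤ 1 / 2 ^ 20 := by
  rw [d1_eq]
  have := eta_pos k
  rw [div_le_div_iff₀ (by positivity) (by positivity)]
  nlinarith

theorem u1_ge (k : ℕ) : 15 / 16 ≤ u1 k := by
  have := d1_le k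
  rw [u1_eq]
  norm_num at this
  linarith

theorem u0_ge (k : ℕ) : 15 / 16 ≤ u0 k := by
  have h1 := d0_le k
  have h2 := eta_le k
  rw [u0_eq]
  have : eta k / 2 ^ 28 ≤ 1 / 16 := by
    rw [div_le_div_iff₀ (by positivity) (by norm_num)]
    linarith
  linarith

theorem u0_le (k : ℕ) : u0 k ≤ 1 := by
  rw [u0_eq]; have := d0_nonneg k; linarith

theorem u1_le (k : ℕ) : u1 k ≤ 1 := by
  rw [u1_eq]; have := d1_pos k; linarith

theorem u_ge (j : ℕ) : 1 / 2 ≤ cc.u j := by
  rcases Nat.even_or_odd' j with ⟨k, rfl | rfl⟩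
  · have := u0_ge k
    unfold u0 at this
    linarith
  · have := u1_ge k
    unfold u1 at this
    linarith

/-- The defect of a block. -/
noncomputable def dl (k : ℕ) : ℝ := 1 - 2 ^ 20 * (u0 k * d1 k)

theorem dl_eq (k : ℕ) : dl k = 1 - u0 k / (1 + eta k) := by
  unfold dl
  rw [d1_eq]
  have := eta_pos k
  field_simp

theorem dl_ge (k : ℕ) : eta k / 2 ≤ dl k := by
  rw [dl_eq]
  have h1 := eta_pos k
  have h2 := u0_le k
  have h3 := eta_le k
  have h4 : u0 k / (1 + eta k) ≤ 1 - eta k / 2 := by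
    rw [div_le_iff₀ (by positivity)]
    nlinarith
  linarith

theorem dl_le (k : ℕ) : dl k ≤ 2 * eta k := by
  rw [dl_eq]
  have h1 := eta_pos k
  have h2 := d0_le k
  have h3 := eta_le k
  have h4 : 1 - 2 * eta k ≤ u0 k / (1 + eta k) := by
    rw [le_div_iff₀ (by positivity), u0_eq]
    have h5 : eta k / 2 ^ 28 ≤ eta k / 2 := by
      apply div_le_div_of_nonneg_left h1.le (by norm_num) (by norm_num)
    nlinarith
  linarith

theorem dl_pos (k : ℕ) : 0 < dl k := by
  have := dl_ge k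
  have := eta_pos k
  linarith

theorem dl_small (k : ℕ) : dl k ≤ 1 / 16 := by
  have := dl_le k
  have h := eta_le k
  norm_num at h
  linarith

/-- The excessive function on even types. -/
noncomputable def fF : ℕ → ℝ
  | 0 => 1
  | k + 1 => fF k * eta k / 2 ^ 24

theorem fF_pos (k : ℕ) : 0 < fF k := by
  induction k with
  | zero => simp [fF]
  | succ k ih =>
    have := eta_pos k
    simp only [fF]
    positivity

/-- The excessive function. -/
noncomputable def ff (j : ℕ) : ℝ :=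
  if j % 2 = 0 then fF (j / 2) else fF (j / 2) * (1 - eta (j / 2) / 8) / 2 ^ 10

theorem ff_even (k : ℕ) : ff (2 * k) = fF k := by
  unfold ff
  rw [if_pos (by omega)]
  congr 1
  omega

theorem ff_odd (k : ℕ) : ff (2 * k + 1) = fF k * (1 - eta k / 8) / 2 ^ 10 := by
  unfold ff
  rw [if_neg (by omega), show (2 * k + 1) / 2 = k by omega]

theorem ff_pos (j : ℕ) : 0 < ff j := by
  rcases Nat.even_or_odd' j with ⟨k, rfl | rfl⟩
  · rw [ff_even]; exact fF_pos k
  · rw [ff_odd]
    have := fF_pos k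
    have h := eta_le k
    have : 0 < 1 - eta k / 8 := by norm_num at h; linarith
    positivity

theorem ff_super (j : ℕ) : 2 ^ 10 * (cc.u j * ff (j + 1) + cc.d j * ff (j - 1))
    ≤ (1 - eta (j / 2) / 16) * ff j := by
  rcases Nat.even_or_odd' j with ⟨k, rfl | rfl⟩
  · rw [show 2 * k / 2 = k by omega, ff_odd, ff_even]
    have hF := fF_pos k
    have he := eta_pos k
    have hle := eta_le k
    have hu : cc.u (2 * k) ≤ 1 := u0_le k
    have hu' : 0 ≤ cc.u (2 * k) := (cc.u_pos _).le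
    have h1 : 2 ^ 10 * (cc.u (2 * k) * (fF k * (1 - eta k / 8) / 2 ^ 10)) ≤
        fF k * (1 - eta k / 8) := by
      have h2 : 0 ≤ fF k * (1 - eta k / 8) := by
        have : 0 < 1 - eta k / 8 := by norm_num at hle; linarith
        positivity
      calc 2 ^ 10 * (cc.u (2 * k) * (fF k * (1 - eta k / 8) / 2 ^ 10))
          = cc.u (2 * k) * (fF k * (1 - eta k / 8)) := by ring
        _ ≤ 1 * (fF k * (1 - eta k / 8)) := mul_le_mul_of_nonneg_right hu h2
        _ = _ := one_mul _
    have h3 : 2 ^ 10 * (cc.d (2 * k) * ff (2 * k - 1)) ≤ fF k * eta k / 16 := by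
      cases k with
      | zero =>
        have : cc.d (2 * 0) = 0 := cc.d_zero
        rw [this]
        simp only [zero_mul, mul_zero]
        positivity
      | succ l =>
        rw [show 2 * (l + 1) - 1 = 2 * l + 1 by omega, ff_odd]
        have hd : cc.d (2 * (l + 1)) ≤ eta l * eta (l + 1) / 2 ^ 28 := d0_succ l
        have hd' : 0 ≤ cc.d (2 * (l + 1)) := cc.d_nonneg _
        have hFl := fF_pos l
        have hel := eta_pos l
        simp only [fF]
        calc 2 ^ 10 * (cc.d (2 * (l + 1)) * (fF l * (1 - eta l / 8) / 2 ^ 10))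
            = cc.d (2 * (l + 1)) * (fF l * (1 - eta l / 8)) := by ring
          _ ≤ cc.d (2 * (l + 1)) * fF l := by
              refine mul_le_mul_of_nonneg_left ?_ hd'
              nlinarith
          _ ≤ eta l * eta (l + 1) / 2 ^ 28 * fF l := mul_le_mul_of_nonneg_right hd hFl.le
          _ = fF l * eta l / 2 ^ 24 * eta (l + 1) / 16 := by ring
    nlinarith
  · rw [show (2 * k + 1) / 2 = k by omega, show 2 * k + 1 + 1 = 2 * (k + 1) by ring, ff_even,
      show 2 * k + 1 - 1 = 2 * k by omega, ff_even, ff_odd]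
    have hF := fF_pos k
    have he := eta_pos k
    have hle := eta_le k
    have hu : cc.u (2 * k + 1) ≤ 1 := u1_le k
    have hd : cc.d (2 * k + 1) = 1 / (2 ^ 20 * (1 + eta k)) := d1_eq k
    rw [hd]
    simp only [fF]
    have h1 : 2 ^ 10 * (cc.u (2 * k + 1) * (fF k * eta k / 2 ^ 24)) ≤ fF k / 2 ^ 10 * (eta k / 16) := by
      calc 2 ^ 10 * (cc.u (2 * k + 1) * (fF k * eta k / 2 ^ 24))
          = cc.u (2 * k + 1) * (fF k / 2 ^ 10 * (eta k / 16)) := by ring
        _ ≤ 1 * (fF k / 2 ^ 10 * (eta k / 16)) := mul_le_mul_of_nonneg_right hu (by positivity)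
        _ = _ := one_mul _
    have h2 : 2 ^ 10 * (1 / (2 ^ 20 * (1 + eta k)) * fF k) ≤ fF k / 2 ^ 10 * (1 - eta k / 2) := by
      have h3 : 1 / (1 + eta k) ≤ 1 - eta k / 2 := by
        rw [div_le_iff₀ (by positivity)]
        nlinarith
      calc 2 ^ 10 * (1 / (2 ^ 20 * (1 + eta k)) * fF k)
          = fF k / 2 ^ 10 * (1 / (1 + eta k)) := by field_simp
        _ ≤ _ := mul_le_mul_of_nonneg_left h3 (by positivity)
    have h4 : fF k / 2 ^ 10 * (1 - eta k / 2) + fF k / 2 ^ 10 * (eta k / 16)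
        ≤ (1 - eta k / 16) * (fF k * (1 - eta k / 8) / 2 ^ 10) := by
      have : (1 - eta k / 2) + eta k / 16 ≤ (1 - eta k / 16) * (1 - eta k / 8) := by nlinarith
      calc fF k / 2 ^ 10 * (1 - eta k / 2) + fF k / 2 ^ 10 * (eta k / 16)
          = fF k / 2 ^ 10 * ((1 - eta k / 2) + eta k / 16) := by ring
        _ ≤ fF k / 2 ^ 10 * ((1 - eta k / 16) * (1 - eta k / 8)) :=
            mul_le_mul_of_nonneg_left this (by positivity)
        _ = _ := by ring
    linarith

end Pool.Agent.Q171.BW
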