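import Pool.Agent.Q171.BW.Num

/-!
# Schedules with large mean and controlled second moment
-/

open scoped ENNReal
open Filter Topology

namespace Pool.Agent.Q171.BW

open Cond

theorem gam_congr (c : Cond) (m T : ℕ) {al al' : ℕ → ℕ → ℕ → Prop} (n : ℕ)
    (h : ∀ n' < n, al n' = al' n') : c.gam m al T n = c.gam m al' T n := by
  induction n with
  | zero => rfl
  | succ n ih =>
    funext j
    simp only [gam]
    rw [ih (fun n' hn' => h n' (by omega)), h n (by omega)]

theorem kap_congr (c : Cond) (m T : ℕ) {al al' : ℕ → ℕ → ℕ → Prop} (n : ℕ)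
    (h : ∀ n' < n, al n' = al' n') : c.kap m al T n = c.kap m al' T n := by
  induction n with
  | zero => rfl
  | succ n ih =>
    funext j
    simp only [kap]
    rw [ih (fun n' hn' => h n' (by omega)), h n (by omega),
      gam_congr c m T n (fun n' hn' => h n' (by omega)), gam_congr c m T (n + 1) h]

/-- Moves allowed in the second stage: one never goes down from an even type, and one
does not go beyond the type `2 K + 1`. -/
def al2 (K j j' : ℕ) : Prop :=
  (j % 2 = 0 ∧ j' = j + 1 ∧ j ≤ 2 * K) ∨ (j % 2 = 1 ∧ j' + 1 = j ∧ j ≤ 2 * K + 1) ∨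
    (j % 2 = 1 ∧ j' = j + 1 ∧ j < 2 * K)

/-- First moments in the second stage. -/
noncomputable def g2 (K n j : ℕ) : ℝ := cc.gam 1024 (fun _ => al2 K) (2 * K) n j

/-- Second moments in the second stage. -/
noncomputable def k2 (K n j : ℕ) : ℝ := cc.kap 1024 (fun _ => al2 K) (2 * K) n j

theorem g2_zero (K j : ℕ) : g2 K 0 j = 0 := rfl

theorem k2_zero (K j : ℕ) : k2 K 0 j = 0 := rfl

theorem g2_nonneg (K n j : ℕ) : 0 ≤ g2 K n j := cc.gam_nonneg _ _ _ _ _

theorem k2_nonneg (K n j : ℕ) : 0 ≤ k2 K n j := cc.kap_nonneg _ _ _ _ _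

theorem g2_even (K n k : ℕ) (hk : k ≤ K) : g2 K (n + 1) (2 * k) = 1024 * (u0 k * g2 K n (2 * k + 1)) := by
  unfold g2 u0
  simp only [gam]
  have h1 : al2 K (2 * k) (2 * k + 1) := Or.inl ⟨by omega, rfl, by omega⟩
  have h2 : ¬ (2 * k + 1 = 2 * K) := by omega
  have h3 : ¬ al2 K (2 * k) (2 * k - 1) := by
    unfold al2; omega
  rw [bit_true h1, bit_false h2, bit_false h3]
  push_cast
  ring

theorem g2_odd (K n k : ℕ) (hk : k ≤ K) : g2 K (n + 1) (2 * k + 1)
    = 1024 * (u1 k * (bit (k < K) * (bit (k + 1 = K) + g2 K n (2 * (k + 1))))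
      + d1 k * (bit (k = K) + g2 K n (2 * k))) := by
  unfold g2 u1 d1
  simp only [gam]
  have e1 : al2 K (2 * k + 1) (2 * k + 1 + 1) = (k < K) := by
    unfold al2
    apply propext
    omega
  have e2 : (2 * k + 1 + 1 = 2 * K) = (k + 1 = K) := by apply propext; omega
  have e3 : 2 * k + 1 - 1 = 2 * k := by omega
  have e4 : al2 K (2 * k + 1) (2 * k) := Or.inr (Or.inl ⟨by omega, rfl, by omega⟩)
  have e5 : (2 * k = 2 * K) = (k = K) := by apply propext; omega
  rw [e3, e1, e2, bit_true e4, e5, show 2 * k + 1 + 1 = 2 * (k + 1) by ring]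
  push_cast
  ring

theorem k2_even (K n k : ℕ) (hk : k ≤ K) : k2 K (n + 1) (2 * k)
    = 1024 * (u0 k * k2 K n (2 * k + 1)) + g2 K (n + 1) (2 * k) ^ 2 := by
  unfold k2 u0
  simp only [kap]
  have h1 : al2 K (2 * k) (2 * k + 1) := Or.inl ⟨by omega, rfl, by omega⟩
  have h2 : ¬ (2 * k + 1 = 2 * K) := by omega
  have h3 : ¬ al2 K (2 * k) (2 * k - 1) := by
    unfold al2; omega
  rw [bit_true h1, bit_false h2, bit_false h3]
  push_cast
  unfold g2
  ring

theorem k2_odd (K n k : ℕ) (hk : k ≤ K) : k2 K (n + 1) (2 * k + 1)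
    = 1024 * (u1 k * (bit (k < K) * (2 * bit (k + 1 = K) * g2 K n (2 * (k + 1))
        + k2 K n (2 * (k + 1))))
      + d1 k * (2 * bit (k = K) * g2 K n (2 * k) + k2 K n (2 * k)))
      + g2 K (n + 1) (2 * k + 1) ^ 2 := by
  unfold k2 u1 d1
  simp only [kap]
  have e1 : al2 K (2 * k + 1) (2 * k + 1 + 1) = (k < K) := by
    unfold al2
    apply propext
    omega
  have e2 : (2 * k + 1 + 1 = 2 * K) = (k + 1 = K) := by apply propext; omega
  have e3 : 2 * k + 1 - 1 = 2 * k := by omega
  have e4 : al2 K (2 * k + 1) (2 * k) := Or.inr (Or.inl ⟨by omega, rfl, by omega⟩)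
  have e5 : (2 * k = 2 * K) = (k = K) := by apply propext; omega
  rw [e3, e1, e2, bit_true e4, e5, show 2 * k + 1 + 1 = 2 * (k + 1) by ring]
  push_cast
  unfold g2
  ring

/-- Growth factor of a block. -/
noncomputable def rr (k : ℕ) : ℝ := 2 ^ 20 * (u0 k * u1 k) / dl k

/-- The limit of the first moments at even types, the starting point being counted. -/
noncomputable def Gh (K k : ℕ) : ℝ := (∏ i ∈ Finset.Ico k K, rr i) / dl K

theorem rr_pos (k : ℕ) : 0 < rr k := by
  have h1 := u0_ge k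
  have h2 := u1_ge k
  have h3 := dl_pos k
  unfold rr
  have : 0 < u0 k := by linarith
  have : 0 < u1 k := by linarith
  positivity

theorem Gh_pos (K k : ℕ) : 0 < Gh K k :=
  div_pos (Finset.prod_pos fun i _ => rr_pos i) (dl_pos K)

theorem Gh_self (K : ℕ) : Gh K K = 1 / dl K := by simp [Gh]

theorem Gh_succ {K k : ℕ} (h : k < K) : Gh K k = rr k * Gh K (k + 1) := by
  unfold Gh
  rw [Finset.prod_eq_prod_Ico_succ_bot h]
  ring

theorem Gh_top {K k : ℕ} (h : k ≤ K) :
    Gh (K + 1) k = Gh K k * (2 ^ 20 * (u0 K * u1 K) / dl (K + 1)) := by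
  unfold Gh rr
  rw [Finset.prod_Ico_succ_top h]
  have := dl_pos K
  have := dl_pos (K + 1)
  field_simp

/-- Limits of the first moments. -/
noncomputable def Ge (K k : ℕ) : ℝ := Gh K k - bit (k = K)

/-- Limits of the first moments at odd types. -/
noncomputable def Go (K k : ℕ) : ℝ := Ge K k / (1024 * u0 k)

theorem Ge_nonneg (K k : ℕ) (h : k ≤ K) : 0 ≤ Ge K k := by
  unfold Ge
  by_cases hk : k = K
  · subst hk
    rw [bit_true rfl, Gh_self]
    have h1 := dl_pos k
    have h2 := dl_small k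
    have : 1 ≤ 1 / dl k := by
      rw [le_div_iff₀ h1]; linarith
    linarith
  · rw [bit_false hk]
    have := Gh_pos K k
    linarith

theorem Go_nonneg (K k : ℕ) (h : k ≤ K) : 0 ≤ Go K k := by
  have := Ge_nonneg K k h
  have := u0_ge k
  unfold Go
  positivity

theorem Ge_eq (K k : ℕ) : Ge K k = 1024 * (u0 k * Go K k) := by
  have := u0_ge k
  have : 0 < u0 k := by linarith
  unfold Go
  field_simp

theorem Go_eq (K k : ℕ) (h : k ≤ K) : Go K k
    = 1024 * (u1 k * (bit (k < K) * (bit (k + 1 = K) + Ge K (k + 1)))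
      + d1 k * (bit (k = K) + Ge K k)) := by
  have hu := u0_ge k
  have hu' : 0 < u0 k := by linarith
  have hdl := dl_pos k
  have hd : dl k = 1 - 2 ^ 20 * (u0 k * d1 k) := rfl
  unfold Go Ge
  rcases h.lt_or_eq with h1 | h1
  · have h2 : ¬ k = K := h1.ne
    rw [bit_true h1, bit_false h2, Gh_succ h1]
    rw [div_eq_iff (by positivity)]
    have h3 : rr k * dl k = 2 ^ 20 * (u0 k * u1 k) := by
      unfold rr; field_simp
    rw [hd] at h3
    linear_combination (Gh K (k + 1)) * h3
  · subst h1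
    rw [bit_false (lt_irrefl k), bit_true rfl, Gh_self, div_eq_iff (by positivity)]
    have h3 : 1 / dl k * dl k = 1 := by field_simp
    have h4 : 1 / dl k * (1 - 2 ^ 20 * (u0 k * d1 k)) = 1 := by rw [← hd]; exact h3
    linear_combination h4

theorem g2_le (K n : ℕ) : ∀ k ≤ K, g2 K n (2 * k) ≤ Ge K k ∧ g2 K n (2 * k + 1) ≤ Go K k := by
  induction n with
  | zero =>
    intro k hk
    rw [g2_zero, g2_zero]
    exact ⟨Ge_nonneg K k hk, Go_nonneg K k hk⟩
  | succ n ih =>
    intro k hk
    have h0 := u0_ge k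
    have h1 := u1_ge k
    have h2 := d1_pos k
    constructor
    · rw [g2_even K n k hk, Ge_eq]
      have := (ih k hk).2
      gcongr
    · rw [g2_odd K n k hk, Go_eq K k hk]
      have h3 := (ih k hk).1
      have h4 : bit (k < K) * (bit (k + 1 = K) + g2 K n (2 * (k + 1)))
          ≤ bit (k < K) * (bit (k + 1 = K) + Ge K (k + 1)) := by
        by_cases hlt : k < K
        · have := (ih (k + 1) hlt).1
          have := bit_nonneg (k < K)
          gcongr
        · rw [bit_false hlt]; simp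
      have : 0 ≤ u1 k := by linarith
      gcongr

/-- Geometric convergence of the first moments. -/
theorem g2_err (K : ℕ) {C : ℝ} (hC : 0 ≤ C)
    (h0 : ∀ k ≤ K, Ge K k ≤ C * ff (2 * k) ∧ Go K k ≤ C * ff (2 * k + 1)) (n : ℕ) :
    ∀ k ≤ K, Ge K k - g2 K n (2 * k) ≤ C * (1 - eta K / 16) ^ n * ff (2 * k) ∧
      Go K k - g2 K n (2 * k + 1) ≤ C * (1 - eta K / 16) ^ n * ff (2 * k + 1) := by
  have hη := eta_pos K
  have hη' := eta_le K
  have hpos : 0 ≤ 1 - eta K / 16 := by norm_num at hη'; linarith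
  induction n with
  | zero =>
    intro k hk
    rw [g2_zero, g2_zero]
    simpa using h0 k hk
  | succ n ih =>
    intro k hk
    have hu0 := u0_ge k
    have hu1 := u1_ge k
    have hd1 := d1_pos k
    have hq : 0 ≤ C * (1 - eta K / 16) ^ n := by positivity
    have hanti := eta_anti hk
    have hstep : ∀ j, j / 2 = k → 2 ^ 10 * (cc.u j * ff (j + 1) + cc.d j * ff (j - 1))
        ≤ (1 - eta K / 16) * ff j := by
      intro j hj
      refine (ff_super j).trans ?_
      rw [hj]
      have := (ff_pos j).le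
      gcongr
    constructor
    · rw [g2_even K n k hk, Ge_eq]
      have h1 := (ih k hk).2
      have h2 := hstep (2 * k) (by omega)
      have h3 : 0 ≤ cc.d (2 * k) * ff (2 * k - 1) :=
        mul_nonneg (cc.d_nonneg _) (ff_pos _).le
      have h4 : 1024 * (u0 k * Go K k) - 1024 * (u0 k * g2 K n (2 * k + 1))
          ≤ 1024 * (u0 k * (C * (1 - eta K / 16) ^ n * ff (2 * k + 1))) := by
        rw [← mul_sub, ← mul_sub]
        gcongr
      refine h4.trans ?_
      have h5 : 1024 * (u0 k * ff (2 * k + 1)) ≤ (1 - eta K / 16) * ff (2 * k) := by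
        have h6 : cc.u (2 * k) = u0 k := rfl
        rw [h6] at h2
        linarith
      calc 1024 * (u0 k * (C * (1 - eta K / 16) ^ n * ff (2 * k + 1)))
          = C * (1 - eta K / 16) ^ n * (1024 * (u0 k * ff (2 * k + 1))) := by ring
        _ ≤ C * (1 - eta K / 16) ^ n * ((1 - eta K / 16) * ff (2 * k)) := by gcongr
        _ = _ := by ring
    · rw [g2_odd K n k hk, Go_eq K k hk]
      have h1 := (ih k hk).1
      have h2 := hstep (2 * k + 1) (by omega)
      have e1 : 2 * k + 1 + 1 = 2 * (k + 1) := by ring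
      have e2 : 2 * k + 1 - 1 = 2 * k := by omega
      rw [e1, e2] at h2
      have e3 : cc.u (2 * k + 1) = u1 k := rfl
      have e4 : cc.d (2 * k + 1) = d1 k := rfl
      rw [e3, e4] at h2
      have h3 : bit (k < K) * (bit (k + 1 = K) + Ge K (k + 1))
          - bit (k < K) * (bit (k + 1 = K) + g2 K n (2 * (k + 1)))
          ≤ C * (1 - eta K / 16) ^ n * ff (2 * (k + 1)) := by
        have hnn : 0 ≤ C * (1 - eta K / 16) ^ n * ff (2 * (k + 1)) :=
          mul_nonneg hq (ff_pos _).le
        by_cases hlt : k < K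
        · rw [bit_true hlt]
          have := (ih (k + 1) hlt).1
          linarith
        · rw [bit_false hlt]
          linarith
      have h1' : (bit (k = K) + Ge K k) - (bit (k = K) + g2 K n (2 * k))
          ≤ C * (1 - eta K / 16) ^ n * ff (2 * k) := by linarith
      have hu1' : 0 ≤ u1 k := by linarith
      have h5 := mul_le_mul_of_nonneg_left h3 hu1'
      have h6 := mul_le_mul_of_nonneg_left h1' hd1.le
      have h7 := mul_le_mul_of_nonneg_left h2 hq
      have h8 : C * (1 - eta K / 16) ^ (n + 1) * ff (2 * k + 1)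
          = C * (1 - eta K / 16) ^ n * ((1 - eta K / 16) * ff (2 * k + 1)) := by ring
      rw [h8]
      linarith

theorem exists_g2 (K k : ℕ) (h : k < K) : ∃ n, Gh K k / 2 ≤ g2 K n (2 * k) := by
  classical
  -- a constant dominating the limits
  obtain ⟨C, hC0, hC⟩ : ∃ C : ℝ, 0 ≤ C ∧
      ∀ k ≤ K, Ge K k ≤ C * ff (2 * k) ∧ Go K k ≤ C * ff (2 * k + 1) := by
    refine ⟨∑ i ∈ Finset.range (K + 1), (Ge K i / ff (2 * i) + Go K i / ff (2 * i + 1)),
      Finset.sum_nonneg fun i hi => ?_, fun k hk => ?_⟩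
    · have hi' : i ≤ K := Nat.lt_succ_iff.1 (Finset.mem_range.1 hi)
      exact add_nonneg (div_nonneg (Ge_nonneg K i hi') (ff_pos _).le)
        (div_nonneg (Go_nonneg K i hi') (ff_pos _).le)
    · have hle : Ge K k / ff (2 * k) + Go K k / ff (2 * k + 1)
          ≤ ∑ i ∈ Finset.range (K + 1), (Ge K i / ff (2 * i) + Go K i / ff (2 * i + 1)) := by
        refine Finset.single_le_sum
          (f := fun i => Ge K i / ff (2 * i) + Go K i / ff (2 * i + 1)) (fun i hi => ?_)
          (Finset.mem_range.2 (Nat.lt_succ_of_le hk))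
        have hi' : i ≤ K := Nat.lt_succ_iff.1 (Finset.mem_range.1 hi)
        exact add_nonneg (div_nonneg (Ge_nonneg K i hi') (ff_pos _).le)
          (div_nonneg (Go_nonneg K i hi') (ff_pos _).le)
      have h1 : 0 ≤ Ge K k / ff (2 * k) := div_nonneg (Ge_nonneg K k hk) (ff_pos _).le
      have h2 : 0 ≤ Go K k / ff (2 * k + 1) := div_nonneg (Go_nonneg K k hk) (ff_pos _).le
      constructor
      · rw [← div_le_iff₀ (ff_pos _)]
        linarith
      · rw [← div_le_iff₀ (ff_pos _)]
        linarith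
  have hη := eta_pos K
  have hη' := eta_le K
  have hpos : 0 ≤ 1 - eta K / 16 := by norm_num at hη'; linarith
  have hlt : 1 - eta K / 16 < 1 := by linarith
  have hlim : Tendsto (fun n : ℕ => C * (1 - eta K / 16) ^ n * ff (2 * k)) atTop (𝓝 0) := by
    have := ((tendsto_pow_atTop_nhds_zero_of_lt_one hpos hlt).const_mul C).mul_const
      (ff (2 * k))
    simpa using this
  have hG := Gh_pos K k
  obtain ⟨n, hn⟩ := (hlim.eventually (gt_mem_nhds (half_pos hG))).exists
  refine ⟨n, ?_⟩
  have h1 := (g2_err K hC0 hC n k h.le).1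
  have h2 : Ge K k = Gh K k := by
    unfold Ge
    rw [bit_false h.ne]
    ring
  rw [h2] at h1
  linarith

/-- Bounds for the second moments. -/
noncomputable def Fe (K k : ℕ) : ℝ := 2 / dl k * Ge K k ^ 2

/-- Bounds for the second moments at odd types. -/
noncomputable def Fo (K k : ℕ) : ℝ :=
  1024 * (u1 k * (bit (k < K) * (2 * bit (k + 1 = K) * Ge K (k + 1) + Fe K (k + 1)))
      + d1 k * (2 * bit (k = K) * Ge K k + Fe K k)) + Go K k ^ 2

theorem Fe_nonneg (K k : ℕ) : 0 ≤ Fe K k := by
  have := dl_pos k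
  unfold Fe
  positivity

theorem Fe_super (K k : ℕ) (h : k ≤ K) : 1024 * (u0 k * Fo K k) + Ge K k ^ 2 ≤ Fe K k := by
  have hu0 := u0_ge k
  have hu0' := u0_le k
  have hu1 := u1_ge k
  have hu1' := u1_le k
  have hd1 := d1_pos k
  have hdl := dl_pos k
  have hdl16 := dl_small k
  have hGe := Ge_nonneg K k h
  have hd : 2 ^ 20 * (u0 k * d1 k) = 1 - dl k := by unfold dl; ring
  have hu0p : 0 < u0 k := by linarith
  -- the contribution of the square of the odd mean
  have hsq : 1024 * (u0 k * Go K k ^ 2) ≤ Ge K k ^ 2 / 4 := by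
    have e1 : 1024 * (u0 k * Go K k ^ 2) = Ge K k ^ 2 / (1024 * u0 k) := by
      unfold Go
      field_simp
    rw [e1]
    apply div_le_div_of_nonneg_left (by positivity) (by norm_num)
    linarith
  rcases h.lt_or_eq with hlt | heq
  · -- inner blocks
    set H := Gh K (k + 1) with hH
    have hHpos : 0 < H := Gh_pos K (k + 1)
    have hΦ : 2 * bit (k + 1 = K) * Ge K (k + 1) + Fe K (k + 1) ≤ 2 / dl (k + 1) * H ^ 2 := by
      unfold Fe Ge
      rw [← hH]
      have hdl' := dl_pos (k + 1)
      by_cases h1 : k + 1 = K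
      · rw [bit_true h1]
        have hH1 : H = 1 / dl (k + 1) := by rw [hH, ← h1, Gh_self]
        have hdl1 := dl_small (k + 1)
        have hge : 1 ≤ 1 / dl (k + 1) := by rw [le_div_iff₀ hdl']; linarith
        have e2 : 2 / dl (k + 1) = 2 * H := by rw [hH1]; ring
        rw [e2]
        rw [← hH1] at hge
        nlinarith
      · rw [bit_false h1]
        simp
    have e1 : 1024 * (u0 k * Fo K k) = 2 ^ 20 * (u0 k * u1 k)
        * (2 * bit (k + 1 = K) * Ge K (k + 1) + Fe K (k + 1))
        + (1 - dl k) * Fe K k + 1024 * (u0 k * Go K k ^ 2) := by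
      unfold Fo
      rw [bit_true hlt, bit_false hlt.ne, ← hd]
      ring
    rw [e1]
    set M := 2 ^ 20 * (u0 k * u1 k) with hM
    have hMpos : 2 ^ 19 ≤ M := by
      rw [hM]
      have : (15 / 16 : ℝ) * (15 / 16) ≤ u0 k * u1 k := by gcongr
      norm_num at this ⊢
      linarith
    have hGe' : Ge K k = M / dl k * H := by
      unfold Ge
      rw [bit_false hlt.ne, Gh_succ hlt, sub_zero]
      unfold rr
      rw [← hM]
    have hη := eta_pos k
    have hη' := eta_le k
    have hkey : 4 * dl k ^ 2 ≤ M * dl (k + 1) := by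
      have h1 := dl_le k
      have h2 := dl_ge (k + 1)
      rw [eta_succ] at h2
      have h3 : 4 * dl k ^ 2 ≤ 4 * (2 * eta k) ^ 2 := by gcongr
      have h4 : 2 ^ 19 * (eta k / 65536 / 2) ≤ M * dl (k + 1) := by gcongr
      have h5 : 4 * (2 * eta k) ^ 2 ≤ 2 ^ 19 * (eta k / 65536 / 2) := by
        norm_num at hη' ⊢
        nlinarith
      linarith
    have hmain : M * (2 / dl (k + 1) * H ^ 2) ≤ Ge K k ^ 2 / 2 := by
      rw [hGe']
      have hdl' := dl_pos (k + 1)
      have e3 : (M / dl k * H) ^ 2 / 2 - M * (2 / dl (k + 1) * H ^ 2)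
          = M * H ^ 2 / (2 * dl k ^ 2 * dl (k + 1)) * (M * dl (k + 1) - 4 * dl k ^ 2) := by
        field_simp
        ring
      have : 0 ≤ (M / dl k * H) ^ 2 / 2 - M * (2 / dl (k + 1) * H ^ 2) := by
        rw [e3]
        have : 0 ≤ M * dl (k + 1) - 4 * dl k ^ 2 := by linarith
        have : 0 < M := by linarith
        positivity
      linarith
    have hM0 : 0 ≤ M := by linarith
    have h1 : M * (2 * bit (k + 1 = K) * Ge K (k + 1) + Fe K (k + 1)) ≤ Ge K k ^ 2 / 2 :=
      (mul_le_mul_of_nonneg_left hΦ hM0).trans hmain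
    have h2 : dl k * Fe K k = 2 * Ge K k ^ 2 := by
      unfold Fe; field_simp
    have h3 : (1 - dl k) * Fe K k = Fe K k - 2 * Ge K k ^ 2 := by
      rw [← h2]; ring
    have h4 : 0 ≤ Ge K k ^ 2 := sq_nonneg _
    linarith
  · -- the last block
    subst heq
    have e1 : 1024 * (u0 k * Fo k k) = (1 - dl k) * (2 * Ge k k + Fe k k)
        + 1024 * (u0 k * Go k k ^ 2) := by
      unfold Fo
      rw [bit_false (lt_irrefl k), bit_true rfl, ← hd]
      ring
    rw [e1]
    have hG1 : 1 - dl k = dl k * Ge k k := by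
      unfold Ge
      rw [bit_true rfl, Gh_self]
      field_simp
    have h2 : dl k * Fe k k = 2 * Ge k k ^ 2 := by
      unfold Fe; field_simp
    have h3 : (1 - dl k) * (2 * Ge k k + Fe k k) = dl k * Ge k k * (2 * Ge k k)
        + Fe k k - 2 * Ge k k ^ 2 := by
      rw [← h2, ← hG1]; ring
    rw [h3]
    have h4 : dl k * Ge k k * (2 * Ge k k) ≤ Ge k k ^ 2 / 4 := by
      have : dl k * (2 * Ge k k ^ 2) ≤ 1 / 16 * (2 * Ge k k ^ 2) := by gcongr
      have h5 : 0 ≤ Ge k k ^ 2 := sq_nonneg _
      nlinarith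
    have h5 : 0 ≤ Ge k k ^ 2 := sq_nonneg _
    linarith

theorem k2_le (K n : ℕ) : ∀ k ≤ K, k2 K n (2 * k) ≤ Fe K k ∧ k2 K n (2 * k + 1) ≤ Fo K k := by
  induction n with
  | zero =>
    intro k hk
    rw [k2_zero, k2_zero]
    refine ⟨Fe_nonneg K k, ?_⟩
    have h1 := u1_ge k
    have h2 := d1_pos k
    have h3 := bit_nonneg (k < K)
    have h4 := bit_nonneg (k + 1 = K)
    have h5 := bit_nonneg (k = K)
    have h6 := Fe_nonneg K k
    have h7 := Fe_nonneg K (k + 1)
    have h8 := Ge_nonneg K k hk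
    have h10 : 0 ≤ u1 k := by linarith
    have h9 : 0 ≤ bit (k < K) * (2 * bit (k + 1 = K) * Ge K (k + 1) + Fe K (k + 1)) := by
      by_cases hlt : k < K
      · have := Ge_nonneg K (k + 1) hlt
        positivity
      · rw [bit_false hlt]; simp
    unfold Fo
    positivity
  | succ n ih =>
    intro k hk
    have hu0 := u0_ge k
    have hu1 := u1_ge k
    have hd1 := d1_pos k
    have hu1' : 0 ≤ u1 k := by linarith
    have hg := g2_le K (n + 1) k hk
    have hg' := g2_le K n k hk
    have hgn := g2_nonneg K (n + 1) (2 * k)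
    have hgn' := g2_nonneg K (n + 1) (2 * k + 1)
    constructor
    · rw [k2_even K n k hk]
      refine le_trans ?_ (Fe_super K k hk)
      have := (ih k hk).2
      have := hg.1
      gcongr
    · rw [k2_odd K n k hk]
      unfold Fo
      have h1 := (ih k hk).1
      have h2 := hg'.1
      have h3 := hg.2
      have h5 := bit_nonneg (k = K)
      have h4 : bit (k < K) * (2 * bit (k + 1 = K) * g2 K n (2 * (k + 1))
          + k2 K n (2 * (k + 1)))
          ≤ bit (k < K) * (2 * bit (k + 1 = K) * Ge K (k + 1) + Fe K (k + 1)) := by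
        by_cases hlt : k < K
        · have h6 := (ih (k + 1) hlt).1
          have h7 := (g2_le K n (k + 1) hlt).1
          have h8 := bit_nonneg (k < K)
          have h9 := bit_nonneg (k + 1 = K)
          gcongr
        · rw [bit_false hlt]; simp
      gcongr

end Pool.Agent.Q171.BW
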