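import Pool.Agent.Q171.BW.Sched

/-!
# Schedules with large mean and controlled second moment, end
-/

open scoped ENNReal
open Filter Topology

namespace Pool.Agent.Q171.BW

open Cond

theorem growth (K k : ℕ) (h : k ≤ K) :
    4 * Gh K k ^ 2 * cc.s (2 * (K + 1)) ≤ Gh (K + 1) k ^ 2 * cc.s (2 * K) := by
  have hη := eta_pos K
  have hη1 := eta_pos (K + 1)
  have hηle := eta_le K
  have hA : (0 : ℝ) < cA K := by exact_mod_cast cA_pos K
  have hB : (0 : ℝ) < cB K := by exact_mod_cast cB_pos K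
  have hsA : (cA K : ℝ) ≤ cc.s (2 * K) := by
    have : cc.s (2 * K) = ee (2 * K) + ee (2 * K + 1) := rfl
    rw [this, ee_odd]
    push_cast
    have : (0 : ℝ) ≤ ee (2 * K) := Nat.cast_nonneg _
    linarith
  have hBA : (cB K : ℝ) ≤ 2 ^ 21 * cA K := by
    have h1 : (cA K : ℝ) + cB K = 2 ^ 20 * cA K * (1 + eta K) := by
      rw [← s_odd]
      have : cc.s (2 * K + 1) = ee (2 * K + 1) + ee (2 * K + 2) := rfl
      rw [this, ee_odd, ee_even]
      push_cast
      ring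
    have h2 : (cA K : ℝ) * eta K ≤ cA K * (1 / 65536) := by gcongr
    norm_num at h2
    nlinarith
  have hs : (cc.s (2 * (K + 1)) : ℝ) ≤ 2 ^ 34 / eta (K + 1) ^ 2 * cc.s (2 * K) := by
    rw [s_even_succ, cA_succ]
    have e1 : eta K = 65536 * eta (K + 1) := by rw [eta_succ]; ring
    have h3 : (cB K : ℝ) ≤ cB K * 2 ^ 28 / (eta K * eta (K + 1)) := by
      rw [le_div_iff₀ (by positivity)]
      have h4 : eta K * eta (K + 1) ≤ 1 := by
        have := eta_le (K + 1)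
        norm_num at this hηle
        nlinarith
      nlinarith
    have h5 : (cB K : ℝ) * 2 ^ 28 / (eta K * eta (K + 1)) * 2
        ≤ 2 ^ 34 / eta (K + 1) ^ 2 * cc.s (2 * K) := by
      have h6 : (cB K : ℝ) ≤ 2 ^ 21 * cc.s (2 * K) := hBA.trans (by linarith)
      calc (cB K : ℝ) * 2 ^ 28 / (eta K * eta (K + 1)) * 2
          = cB K * (2 ^ 13 / eta (K + 1) ^ 2) := by
            rw [e1]; field_simp; norm_num
        _ ≤ (2 ^ 21 * cc.s (2 * K)) * (2 ^ 13 / eta (K + 1) ^ 2) := by gcongr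
        _ = _ := by ring
    linarith
  have hM : 2 ^ 18 / eta (K + 1) ≤ 2 ^ 20 * (u0 K * u1 K) / dl (K + 1) := by
    have h0 := u0_ge K
    have h1 := u1_ge K
    have h2 : (15 / 16 : ℝ) * (15 / 16) ≤ u0 K * u1 K := by gcongr
    have h3 := dl_le (K + 1)
    have h4 := dl_pos (K + 1)
    rw [div_le_div_iff₀ hη1 h4]
    have h5 : 2 ^ 18 * dl (K + 1) ≤ 2 ^ 18 * (2 * eta (K + 1)) := by gcongr
    have h6 : (2 ^ 20 * (1 / 2)) * eta (K + 1) ≤ 2 ^ 20 * (u0 K * u1 K) * eta (K + 1) := by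
      gcongr
      norm_num at h2
      linarith
    linarith
  rw [Gh_top h]
  have hG := Gh_pos K k
  have hpos : (0 : ℝ) < cc.s (2 * K) := cc.s_pos' _
  calc 4 * Gh K k ^ 2 * cc.s (2 * (K + 1))
      ≤ 4 * Gh K k ^ 2 * (2 ^ 34 / eta (K + 1) ^ 2 * cc.s (2 * K)) := by gcongr
    _ = (Gh K k * (2 ^ 18 / eta (K + 1))) ^ 2 * cc.s (2 * K) := by ring
    _ ≤ _ := by gcongr

theorem exists_big (k : ℕ) : ∃ K₀, k < K₀ ∧ ∀ K ≥ K₀, 4 * (cc.s (2 * K) : ℝ) ≤ Gh K k ^ 2 := by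
  have hw : ∀ i : ℕ, 4 ^ i * (Gh k k ^ 2 / cc.s (2 * k)) ≤ Gh (k + i) k ^ 2 / cc.s (2 * (k + i)) := by
    intro i
    induction i with
    | zero => simp
    | succ i ih =>
      have h1 := growth (k + i) k (by omega)
      have hp := cc.s_pos' (2 * (k + i))
      have hp' := cc.s_pos' (2 * (k + i + 1))
      have h2 : 4 * (Gh (k + i) k ^ 2 / cc.s (2 * (k + i)))
          ≤ Gh (k + i + 1) k ^ 2 / cc.s (2 * (k + i + 1)) := by
        rw [← mul_div_assoc, div_le_div_iff₀ hp hp']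
        linarith
      calc 4 ^ (i + 1) * (Gh k k ^ 2 / cc.s (2 * k))
          = 4 * (4 ^ i * (Gh k k ^ 2 / cc.s (2 * k))) := by ring
        _ ≤ 4 * (Gh (k + i) k ^ 2 / cc.s (2 * (k + i))) := by gcongr
        _ ≤ _ := h2
  set w₀ : ℝ := Gh k k ^ 2 / cc.s (2 * k) with hw₀
  have hw0pos : 0 < w₀ := by
    have := Gh_pos k k
    have := cc.s_pos' (2 * k)
    positivity
  obtain ⟨N, hN⟩ := pow_unbounded_of_one_lt (4 / w₀) (by norm_num : (1 : ℝ) < 4)
  refine ⟨k + (N + 1), by omega, fun K hK => ?_⟩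
  obtain ⟨i, rfl⟩ : ∃ i, K = k + i := ⟨K - k, by omega⟩
  have hi : N ≤ i := by omega
  have h1 := hw i
  have h2 : (4 : ℝ) ^ N ≤ 4 ^ i := pow_le_pow_right₀ (by norm_num) hi
  have h3 : 4 ≤ 4 ^ i * w₀ := by
    rw [div_lt_iff₀ hw0pos] at hN
    nlinarith
  have hp := cc.s_pos' (2 * (k + i))
  have h4 := h3.trans h1
  rwa [le_div_iff₀ hp] at h4

/-- The full schedule: go up during the first stage. -/
def al (K n₂ n j j' : ℕ) : Prop := if n < n₂ then al2 K j j' else j' = j + 1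

theorem stage1 (K k n₂ l : ℕ) (hk : k < K) (hl : l ≤ 2 * k) {R : ℝ} (hR : 0 ≤ R)
    (hg : 0 < cc.gam 1024 (al K n₂) (2 * K) n₂ (2 * k))
    (hκ : cc.kap 1024 (al K n₂) (2 * K) n₂ (2 * k)
      ≤ R * cc.gam 1024 (al K n₂) (2 * K) n₂ (2 * k) ^ 2) :
    cc.gam 1024 (al K n₂) (2 * K) n₂ (2 * k)
        ≤ cc.gam 1024 (al K n₂) (2 * K) (n₂ + l) (2 * k - l) ∧
      cc.kap 1024 (al K n₂) (2 * K) (n₂ + l) (2 * k - l)
        ≤ (R / 512 ^ l + 2) * cc.gam 1024 (al K n₂) (2 * K) (n₂ + l) (2 * k - l) ^ 2 := by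
  induction l with
  | zero =>
    simp only [add_zero, Nat.sub_zero, pow_zero, div_one]
    refine ⟨le_rfl, hκ.trans ?_⟩
    gcongr
    linarith
  | succ l ih =>
    obtain ⟨ih1, ih2⟩ := ih (by omega)
    obtain ⟨j, hj⟩ : ∃ j, j = 2 * k - (l + 1) := ⟨_, rfl⟩
    have hj1 : 2 * k - l = j + 1 := by omega
    rw [hj1] at ih1 ih2
    rw [← hj]
    have e1 : al K n₂ (n₂ + l) j (j + 1) := by unfold al; rw [if_neg (by omega)]
    have e2 : ¬ al K n₂ (n₂ + l) j (j - 1) := by unfold al; rw [if_neg (by omega)]; omega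
    have e3 : ¬ (j + 1 = 2 * K) := by omega
    set G := cc.gam 1024 (al K n₂) (2 * K) (n₂ + l) (j + 1) with hG
    set G' := cc.gam 1024 (al K n₂) (2 * K) (n₂ + (l + 1)) j with hG'
    have hGeq : G' = 1024 * (cc.u j * G) := by
      rw [hG', ← add_assoc]
      simp only [gam]
      rw [bit_true e1, bit_false e2, bit_false e3]
      push_cast
      rw [hG]
      ring
    have hKeq : cc.kap 1024 (al K n₂) (2 * K) (n₂ + (l + 1)) j
        = 1024 * (cc.u j * cc.kap 1024 (al K n₂) (2 * K) (n₂ + l) (j + 1)) + G' ^ 2 := by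
      rw [hG', ← add_assoc]
      simp only [kap]
      rw [bit_true e1, bit_false e2, bit_false e3]
      push_cast
      ring
    have hu := u_ge j
    have hGpos : 0 < G := hg.trans_le ih1
    have hGG : 512 * G ≤ G' := by
      rw [hGeq]; nlinarith
    refine ⟨ih1.trans (by linarith), ?_⟩
    rw [hKeq]
    have hup : 0 < cc.u j := cc.u_pos j
    have h1 : 1024 * (cc.u j * cc.kap 1024 (al K n₂) (2 * K) (n₂ + l) (j + 1))
        ≤ (R / 512 ^ l + 2) * (G' * G) := by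
      calc 1024 * (cc.u j * cc.kap 1024 (al K n₂) (2 * K) (n₂ + l) (j + 1))
          ≤ 1024 * (cc.u j * ((R / 512 ^ l + 2) * G ^ 2)) := by gcongr
        _ = (R / 512 ^ l + 2) * (G' * G) := by rw [hGeq]; ring
    have h2 : G' * G ≤ G' ^ 2 / 512 := by
      have : 0 < G' := by linarith
      nlinarith
    have h3 : 0 ≤ R / 512 ^ l + 2 := by positivity
    have h4 : (R / 512 ^ l + 2) * (G' * G) ≤ (R / 512 ^ l + 2) * (G' ^ 2 / 512) := by gcongr
    have h5 : R / 512 ^ (l + 1) = R / 512 ^ l / 512 := by rw [pow_succ]; field_simp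
    rw [h5]
    have h6 : 0 ≤ G' ^ 2 := sq_nonneg _
    nlinarith

/-- For every starting type there are schedules which are good for all large levels. -/
theorem sched (j : ℕ) : ∃ K₀, ∀ K ≥ K₀, ∃ (al' : ℕ → ℕ → ℕ → Prop) (n : ℕ),
    (cc.s (2 * K) : ℝ) ≤ cc.gam 1024 al' (2 * K) n j ^ 2 ∧
    cc.kap 1024 al' (2 * K) n j ≤ 3 * cc.gam 1024 al' (2 * K) n j ^ 2 := by
  set k := 10 + 9 * j with hk
  obtain ⟨K₀, hK₀, hbig⟩ := exists_big k
  refine ⟨K₀, fun K hK => ?_⟩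
  have hkK : k < K := by omega
  obtain ⟨n₂, hn₂⟩ := exists_g2 K k hkK
  have hG := Gh_pos K k
  have hGe : Ge K k = Gh K k := by
    unfold Ge
    rw [bit_false hkK.ne]
    ring
  have hgam : cc.gam 1024 (al K n₂) (2 * K) n₂ (2 * k) = g2 K n₂ (2 * k) := by
    unfold g2
    rw [gam_congr cc 1024 (2 * K) (al := al K n₂) (al' := fun _ => al2 K) n₂]
    intro n' hn'
    funext a b
    unfold al
    rw [if_pos hn']
  have hkap : cc.kap 1024 (al K n₂) (2 * K) n₂ (2 * k) = k2 K n₂ (2 * k) := by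
    unfold k2
    rw [kap_congr cc 1024 (2 * K) (al := al K n₂) (al' := fun _ => al2 K) n₂]
    intro n' hn'
    funext a b
    unfold al
    rw [if_pos hn']
  have hpos : 0 < g2 K n₂ (2 * k) := by linarith
  have hdl := dl_pos k
  have hκ : cc.kap 1024 (al K n₂) (2 * K) n₂ (2 * k)
      ≤ (8 / dl k) * cc.gam 1024 (al K n₂) (2 * K) n₂ (2 * k) ^ 2 := by
    rw [hgam, hkap]
    refine ((k2_le K n₂ k hkK.le).1).trans ?_
    unfold Fe
    rw [hGe]
    calc 2 / dl k * Gh K k ^ 2 = 8 / dl k * (Gh K k / 2) ^ 2 := by ring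
      _ ≤ _ := by gcongr
  have hl : 2 * k - j ≤ 2 * k := Nat.sub_le _ _
  obtain ⟨h1, h2⟩ := stage1 K k n₂ (2 * k - j) hkK hl (R := 8 / dl k) (by positivity)
    (by rw [hgam]; exact hpos) hκ
  have hjj : 2 * k - (2 * k - j) = j := by omega
  rw [hjj] at h1 h2
  refine ⟨al K n₂, n₂ + (2 * k - j), ?_, h2.trans ?_⟩
  · rw [hgam] at h1
    have h3 := hbig K hK
    have h4 : Gh K k / 2 ≤ cc.gam 1024 (al K n₂) (2 * K) (n₂ + (2 * k - j)) j := hn₂.trans h1
    calc (cc.s (2 * K) : ℝ) ≤ (Gh K k / 2) ^ 2 := by linarith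
      _ ≤ _ := by gcongr
  · gcongr
    have h5 : 8 / dl k ≤ 2 ^ 4 * 65536 ^ (k + 1) := by
      have h6 := dl_ge k
      unfold eta at h6
      rw [div_le_iff₀ hdl]
      have h7 : (2 : ℝ) ^ 4 * 65536 ^ (k + 1) * (1 / 65536 ^ (k + 1) / 2)
          ≤ 2 ^ 4 * 65536 ^ (k + 1) * dl k := by gcongr
      have h8 : (2 : ℝ) ^ 4 * 65536 ^ (k + 1) * (1 / 65536 ^ (k + 1) / 2) = 8 := by
        field_simp
        norm_num
      linarith
    have h6 : (2 : ℝ) ^ 4 * 65536 ^ (k + 1) ≤ 512 ^ (2 * k - j) := by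
      have e1 : (65536 : ℝ) = 2 ^ 16 := by norm_num
      have e2 : (512 : ℝ) = 2 ^ 9 := by norm_num
      rw [e1, e2, ← pow_mul, ← pow_mul, ← pow_add]
      apply pow_le_pow_right₀ (by norm_num)
      omega
    have h7 : 8 / dl k / 512 ^ (2 * k - j) ≤ 1 := by
      rw [div_le_one (by positivity)]
      linarith
    linarith

end Pool.Agent.Q171.BW
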