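import Pool.Agent.Q171.BW.Walk

/-!
# The graph and the spectral radius
-/

open scoped ENNReal
open Filter Topology MeasureTheory

namespace Pool.Agent.Q171.BW

open Cond

/-- The graph: consecutive levels are completely joined. -/
def GG : SimpleGraph cc.Vtx where
  Adj x y := y.1 = x.1 + 1 ∨ x.1 = y.1 + 1
  symm := ⟨fun x y h => h.symm⟩
  loopless := ⟨fun x h => by rcases h with h | h <;> omega⟩

theorem nn : NearestNeighbour GG cc.P := fun x y => cc.P_ne_zero x y

/-- The first vertex of a level. -/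
def v0 (j : ℕ) : cc.Vtx := ⟨j, ⟨0, cc.s_pos j⟩⟩

theorem reach_v0 : ∀ (j : ℕ) (i : Fin (cc.s j)), GG.Reachable ⟨j, i⟩ (v0 0) := by
  intro j
  induction j with
  | zero =>
    intro i
    have h1 : GG.Adj ⟨0, i⟩ (v0 1) := Or.inl rfl
    have h2 : GG.Adj (v0 1) (v0 0) := Or.inr rfl
    exact h1.reachable.trans h2.reachable
  | succ j ih =>
    intro i
    have h1 : GG.Adj ⟨j + 1, i⟩ (v0 j) := Or.inr rfl
    exact h1.reachable.trans (ih _)

theorem gg_connected : GG.Connected := by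
  have : Nonempty cc.Vtx := ⟨v0 0⟩
  refine SimpleGraph.Connected.mk fun x y => ?_
  exact (reach_v0 x.1 x.2).trans (reach_v0 y.1 y.2).symm

theorem irred : Irred cc.P := irred_of_connected cc.P gg_connected nn

theorem quasi : QuasiSymmetric cc.P :=
  ⟨1, by simp, fun x y n => by rw [one_mul, nstep_symm cc.P cc.P_symm n x y]⟩

theorem tendsto_root {b : ℝ} (hb : 0 < b) :
    Tendsto (fun n : ℕ => (ENNReal.ofReal b) ^ (1 / (n : ℝ))) atTop (𝓝 1) := by
  have h1 : Tendsto (fun n : ℕ => b ^ (1 / (n : ℝ))) atTop (𝓝 1) := by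
    have h2 : Tendsto (fun n : ℕ => 1 / (n : ℝ)) atTop (𝓝 0) := tendsto_one_div_atTop_nhds_zero_nat
    have h3 := (Real.continuousAt_const_rpow hb.ne' (b := 0)).tendsto.comp h2
    rw [Real.rpow_zero] at h3
    exact h3
  have h4 := ENNReal.tendsto_ofReal h1
  rw [ENNReal.ofReal_one] at h4
  refine h4.congr fun n => ?_
  rw [ENNReal.ofReal_rpow_of_pos hb]

theorem spec_le (x y : cc.Vtx) :
    limsup (fun n : ℕ => (nstep cc.P n x y) ^ (1 / (n : ℝ))) atTop ≤ (1024 : ℝ≥0∞)⁻¹ := by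
  have hη := eta_pos (y.1 / 2)
  have hf := ff_pos y.1
  have hfx := ff_pos x.1
  set b : ℝ := 16 / (eta (y.1 / 2) * ff y.1) * ff x.1 with hb
  have hbpos : 0 < b := by positivity
  have h1 : ∀ n : ℕ, nstep cc.P n x y ≤ ENNReal.ofReal b * ((1024 : ℝ≥0∞)⁻¹) ^ n := by
    intro n
    have h2 : (1024 : ℝ≥0∞) ^ n * nstep cc.P n x y ≤ ENNReal.ofReal b := by
      refine le_trans ?_ (potential y (n + 1) x)
      exact Finset.single_le_sum (f := fun n => (1024 : ℝ≥0∞) ^ n * nstep cc.P n x y)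
        (fun i _ => by simp) (Finset.mem_range.2 (Nat.lt_succ_self n))
    rw [← ENNReal.inv_pow, ← div_eq_mul_inv, ENNReal.le_div_iff_mul_le]
    · rw [mul_comm]; exact h2
    · left; positivity
    · left; exact ENNReal.pow_ne_top (by norm_num)
  have h3 : ∀ᶠ n : ℕ in atTop, (nstep cc.P n x y) ^ (1 / (n : ℝ))
      ≤ (ENNReal.ofReal b) ^ (1 / (n : ℝ)) * (1024 : ℝ≥0∞)⁻¹ := by
    filter_upwards [eventually_gt_atTop 0] with n hn
    have hn' : (0 : ℝ) < n := by exact_mod_cast hn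
    calc (nstep cc.P n x y) ^ (1 / (n : ℝ))
        ≤ (ENNReal.ofReal b * ((1024 : ℝ≥0∞)⁻¹) ^ n) ^ (1 / (n : ℝ)) :=
          ENNReal.rpow_le_rpow (h1 n) (by positivity)
      _ = _ := by
          rw [ENNReal.mul_rpow_of_nonneg _ _ (by positivity), ← ENNReal.rpow_natCast,
            ← ENNReal.rpow_mul, mul_one_div_cancel hn'.ne', ENNReal.rpow_one]
  refine (limsup_le_limsup h3).trans ?_
  have h4 : Tendsto (fun n : ℕ => (ENNReal.ofReal b) ^ (1 / (n : ℝ)) * (1024 : ℝ≥0∞)⁻¹) atTop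
      (𝓝 (1 * (1024 : ℝ≥0∞)⁻¹)) :=
    ENNReal.Tendsto.mul_const (tendsto_root hbpos) (Or.inl one_ne_zero)
  rw [h4.limsup_eq, one_mul]

/-- Lower bound for the probability of staying in a block. -/
theorem stay (k n : ℕ) : ∀ y : cc.Vtx, y.1 = 2 * k + 1 →
    ENNReal.ofReal (d1 k * (u0 k * d1 k) ^ n / cc.s (2 * k))
      ≤ nstep cc.P (2 * n + 1) y (v0 (2 * k)) := by
  have hu0 := u0_ge k
  have hu0' : 0 < u0 k := by linarith
  have hd1 := d1_pos k
  have hs := cc.s_pos' (2 * k)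
  have hs1 := cc.s_pos' (2 * k + 1)
  induction n with
  | zero =>
    intro y hy
    rw [mul_zero, zero_add, nstep_one, cc.P_apply]
    apply ENNReal.ofReal_le_ofReal
    unfold pr
    have h1 : (v0 (2 * k)).1 = 2 * k := rfl
    rw [if_neg (by rw [h1]; omega), if_pos (by rw [h1]; exact hy), h1, hy]
    have h2 : d1 k = cc.e (2 * k + 1) / cc.s (2 * k + 1) := rfl
    rw [h2, pow_zero, mul_one, div_div]
  | succ n ih =>
    intro y hy
    set r : ℝ := d1 k * (u0 k * d1 k) ^ n / cc.s (2 * k) with hr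
    have hr0 : 0 ≤ r := by positivity
    rw [show 2 * (n + 1) + 1 = (2 * n + 1 + 1) + 1 by ring, nstep_succ]
    have h1 : ∀ w : cc.Vtx, ENNReal.ofReal (bit (w.1 = 2 * k) * (u0 k * r))
        ≤ nstep cc.P (2 * n + 1 + 1) w (v0 (2 * k)) := by
      intro w
      by_cases hw : w.1 = 2 * k
      · rw [bit_true hw, one_mul, nstep_succ]
        have h2 : ENNReal.ofReal (cc.op (fun y => bit (y.1 = 2 * k + 1) * r) w)
            ≤ ∑' z, cc.P w z * nstep cc.P (2 * n + 1) z (v0 (2 * k)) := by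
          rw [← cc.tsum_P w (fun y => mul_nonneg (bit_nonneg _) hr0)]
          refine ENNReal.tsum_le_tsum fun z => ?_
          gcongr
          by_cases hz : z.1 = 2 * k + 1
          · rw [bit_true hz, one_mul]
            exact ih z hz
          · rw [bit_false hz, zero_mul]
            simp
        refine le_trans (ENNReal.ofReal_le_ofReal ?_) h2
        have havg : cc.avg (w.1 + 1) (fun y => bit (y.1 = 2 * k + 1) * r) = r := by
          rw [hw]
          unfold avg
          simp only [bit_true, one_mul, Finset.sum_const, Finset.card_univ, Fintype.card_fin,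
            nsmul_eq_mul]
          field_simp
        unfold op
        rw [havg, hw]
        have h3 : 0 ≤ cc.d (2 * k) * cc.avg (2 * k - 1) (fun y => bit (y.1 = 2 * k + 1) * r) :=
          mul_nonneg (cc.d_nonneg _) (cc.avg_nonneg _ fun y => mul_nonneg (bit_nonneg _) hr0)
        have h4 : cc.u (2 * k) = u0 k := rfl
        rw [h4]
        linarith
      · rw [bit_false hw, zero_mul]
        simp
    have h5 : ENNReal.ofReal (cc.op (fun w => bit (w.1 = 2 * k) * (u0 k * r)) y)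
        ≤ ∑' w, cc.P y w * nstep cc.P (2 * n + 1 + 1) w (v0 (2 * k)) := by
      rw [← cc.tsum_P y (fun w => mul_nonneg (bit_nonneg _) (by positivity))]
      refine ENNReal.tsum_le_tsum fun w => ?_
      gcongr
      exact h1 w
    refine le_trans (ENNReal.ofReal_le_ofReal ?_) h5
    unfold op
    have havg : cc.avg (2 * k) (fun y => bit (y.1 = 2 * k) * (u0 k * r)) = u0 k * r := by
      unfold avg
      simp only [bit_true, one_mul, Finset.sum_const, Finset.card_univ, Fintype.card_fin,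
        nsmul_eq_mul]
      field_simp
    rw [hy, show 2 * k + 1 - 1 = 2 * k by omega, havg]
    have h3 : 0 ≤ cc.u (2 * k + 1) *
        cc.avg (2 * k + 1 + 1) (fun y => bit (y.1 = 2 * k) * (u0 k * r)) :=
      mul_nonneg (cc.u_pos _).le
        (cc.avg_nonneg _ fun y => mul_nonneg (bit_nonneg _) (by positivity))
    have h4 : cc.d (2 * k + 1) = d1 k := rfl
    rw [h4]
    have h6 : d1 k * (u0 k * d1 k) ^ (n + 1) / cc.s (2 * k) = d1 k * (u0 k * r) := by
      rw [hr, pow_succ]; ring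
    rw [h6]
    linarith

theorem le_spec_aux (x y : cc.Vtx) {θ : ℝ} (hθ : 0 < θ) (hθ' : θ < 1 / 1024) :
    ENNReal.ofReal θ ≤ limsup (fun n : ℕ => (nstep cc.P n x y) ^ (1 / (n : ℝ))) atTop := by
  -- choice of the block
  have hgap : 0 < 1 - (1024 * θ) ^ 2 := by
    have : 1024 * θ < 1 := by linarith
    have : 0 < 1024 * θ := by positivity
    nlinarith
  obtain ⟨k, hk⟩ : ∃ k : ℕ, 2 * eta k < 1 - (1024 * θ) ^ 2 := by
    obtain ⟨k, hk⟩ := exists_pow_lt_of_lt_one (half_pos hgap) (by norm_num : (1 / 65536 : ℝ) < 1)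
    refine ⟨k, ?_⟩
    have : eta k ≤ (1 / 65536) ^ k := by
      unfold eta
      rw [div_pow, one_pow, pow_succ]
      apply div_le_div_of_nonneg_left zero_le_one (by positivity)
      have : (0 : ℝ) < 65536 ^ k := by positivity
      linarith
    linarith
  have hlam : θ ^ 2 < u0 k * d1 k := by
    have h1 := dl_le k
    unfold dl at h1
    norm_num at h1
    nlinarith
  set lam := u0 k * d1 k with hlamdef
  have hlampos : 0 < lam := lt_of_le_of_lt (sq_nonneg θ) hlam
  obtain ⟨a, ha⟩ := irred x (v0 (2 * k + 1))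
  obtain ⟨b, hb⟩ := irred (v0 (2 * k)) y
  have hd1 := d1_pos k
  have hs := cc.s_pos' (2 * k)
  set κ : ℝ := (nstep cc.P a x (v0 (2 * k + 1))).toReal * (nstep cc.P b (v0 (2 * k)) y).toReal
    * (d1 k / cc.s (2 * k)) with hκ
  have hfa : nstep cc.P a x (v0 (2 * k + 1)) ≠ ⊤ :=
    ne_top_of_le_ne_top ENNReal.one_ne_top (nstep_le_one _ _ _ _)
  have hfb : nstep cc.P b (v0 (2 * k)) y ≠ ⊤ :=
    ne_top_of_le_ne_top ENNReal.one_ne_top (nstep_le_one _ _ _ _)
  have hκpos : 0 < κ := by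
    have h1 := ENNReal.toReal_pos ha hfa
    have h2 := ENNReal.toReal_pos hb hfb
    positivity
  have hlow : ∀ n : ℕ, ENNReal.ofReal (κ * lam ^ n)
      ≤ nstep cc.P (a + (2 * n + 1) + b) x y := by
    intro n
    refine le_trans ?_ (nstep_mul_le cc.P (a + (2 * n + 1)) b x (v0 (2 * k)) y)
    refine le_trans ?_ (mul_le_mul_left (nstep_mul_le cc.P a (2 * n + 1) x (v0 (2 * k + 1))
      (v0 (2 * k))) _)
    have h1 := stay k n (v0 (2 * k + 1)) rfl
    refine le_trans ?_ (mul_le_mul_left (mul_le_mul_right h1 _) _)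
    rw [← ENNReal.ofReal_toReal hfa, ← ENNReal.ofReal_toReal hfb,
      ← ENNReal.ofReal_mul ENNReal.toReal_nonneg, ← ENNReal.ofReal_mul (by positivity)]
    apply ENNReal.ofReal_le_ofReal
    rw [hκ]
    refine le_of_eq ?_
    rw [← hlamdef]
    ring
  refine le_limsup_of_frequently_le ?_ (by isBoundedDefault)
  rw [frequently_atTop]
  intro N₀
  -- growth of the ratio
  have hratio : 1 < lam / θ ^ 2 := by rw [lt_div_iff₀ (by positivity)]; linarith
  obtain ⟨n₁, hn₁⟩ := pow_unbounded_of_one_lt (θ ^ (a + b + 1) / κ) hratio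
  set n := max n₁ N₀ with hn
  refine ⟨a + (2 * n + 1) + b, by omega, ?_⟩
  set N := a + (2 * n + 1) + b with hN
  have hNpos : (0 : ℝ) < (N : ℝ) := by
    have : 0 < N := by omega
    exact_mod_cast this
  have h1 : θ ^ N ≤ κ * lam ^ n := by
    have h2 : θ ^ (a + b + 1) / κ ≤ (lam / θ ^ 2) ^ n :=
      hn₁.le.trans (pow_le_pow_right₀ hratio.le (le_max_left _ _))
    rw [div_le_iff₀ hκpos, div_pow, div_mul_eq_mul_div, le_div_iff₀ (by positivity)] at h2
    calc θ ^ N = θ ^ (a + b + 1) * (θ ^ 2) ^ n := by rw [← pow_mul, ← pow_add, hN]; ring_nf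
      _ ≤ lam ^ n * κ := h2
      _ = _ := mul_comm _ _
  calc ENNReal.ofReal θ = ((ENNReal.ofReal θ) ^ (N : ℝ)) ^ (1 / (N : ℝ)) := by
        rw [← ENNReal.rpow_mul, mul_one_div_cancel hNpos.ne', ENNReal.rpow_one]
    _ ≤ (nstep cc.P N x y) ^ (1 / (N : ℝ)) := by
        apply ENNReal.rpow_le_rpow _ (by positivity)
        refine le_trans ?_ (hlow n)
        rw [ENNReal.rpow_natCast, ← ENNReal.ofReal_pow hθ.le]
        exact ENNReal.ofReal_le_ofReal h1

theorem spec : IsSpectralRadius cc.P (1024 : ℝ≥0∞)⁻¹ := by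
  intro x y
  refine le_antisymm (spec_le x y) ?_
  refine le_of_forall_lt fun c hc => ?_
  obtain ⟨c', hc1, hc2⟩ := exists_between hc
  have hc'top : c' ≠ ⊤ := ne_top_of_lt hc2
  have hc'0 : c' ≠ 0 := (lt_of_le_of_lt (by simp) hc1).ne'
  have h1 : c'.toReal < 1 / 1024 := by
    have := (ENNReal.toReal_lt_toReal hc'top (by simp)).2 hc2
    simpa using this
  have h2 := le_spec_aux x y (ENNReal.toReal_pos hc'0 hc'top) h1
  rw [ENNReal.ofReal_toReal hc'top] at h2
  exact hc1.trans_le h2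

end Pool.Agent.Q171.BW
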