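import Pool.Agent.Q171.BW.Sched2

/-!
# The walk: symmetry, irreducibility, potential bound
-/

open scoped ENNReal
open Filter Topology MeasureTheory

namespace Pool.Agent.Q171.BW

section general

variable {V : Type} (P : V → PMF V)

theorem nstep_succ (n : ℕ) (x y : V) : nstep P (n + 1) x y = ∑' z, P x z * nstep P n z y := by
  simp [nstep, PMF.bind_apply]

theorem nstep_succ' (n : ℕ) (x y : V) :
    nstep P (n + 1) x y = ∑' z, nstep P n x z * P z y := by
  classical
  induction n generalizing x with
  | zero =>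
    rw [nstep_succ]
    simp only [nstep, PMF.pure_apply]
    rw [tsum_eq_single y, tsum_eq_single x]
    · simp
    · intro z hz; simp [hz]
    · intro z hz; simp [hz.symm]
  | succ n ih =>
    rw [nstep_succ]
    simp_rw [ih]
    simp_rw [← ENNReal.tsum_mul_left]
    rw [ENNReal.tsum_comm]
    refine tsum_congr fun z => ?_
    rw [nstep_succ, ← ENNReal.tsum_mul_right]
    refine tsum_congr fun w => ?_
    ring

theorem nstep_symm (hP : ∀ x y, P x y = P y x) (n : ℕ) : ∀ x y, nstep P n x y = nstep P n y x := by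
  classical
  induction n with
  | zero => intro x y; simp [nstep, PMF.pure_apply, eq_comm]
  | succ n ih =>
    intro x y
    rw [nstep_succ, nstep_succ']
    refine tsum_congr fun z => ?_
    rw [ih z y, hP x z, mul_comm]

theorem nstep_le_one (n : ℕ) (x y : V) : nstep P n x y ≤ 1 := PMF.coe_le_one _ _

theorem nstep_mul_le (n k : ℕ) (x y z : V) :
    nstep P n x y * nstep P k y z ≤ nstep P (n + k) x z := by
  induction n generalizing x with
  | zero =>
    classical
    rw [zero_add]
    simp only [nstep, PMF.pure_apply]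
    by_cases h : y = x
    · subst h; simp
    · simp [h]
  | succ n ih =>
    rw [show n + 1 + k = (n + k) + 1 by ring, nstep_succ, nstep_succ, ← ENNReal.tsum_mul_right]
    refine ENNReal.tsum_le_tsum fun w => ?_
    rw [mul_assoc]
    gcongr
    exact ih w

theorem nstep_one (x y : V) : nstep P 1 x y = P x y := by
  classical
  rw [nstep_succ]
  rw [tsum_eq_single y]
  · simp [nstep]
  · intro z hz
    simp [nstep, PMF.pure_apply, hz.symm]

theorem irred_of_connected {G : SimpleGraph V} (hG : G.Connected)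
    (h : NearestNeighbour G P) : Irred P := by
  intro x y
  obtain ⟨p⟩ := hG.preconnected x y
  induction p with
  | nil => exact ⟨0, by simp [nstep]⟩
  | cons hadj p ih =>
    obtain ⟨n, hn⟩ := ih
    rename_i a b c'
    refine ⟨1 + n, ?_⟩
    intro h0
    have h1 := nstep_mul_le P 1 n a b c'
    rw [h0, nstep_one] at h1
    have h2 : P a b ≠ 0 := (h a b).2 hadj
    exact (mul_ne_zero h2 hn) (le_antisymm h1 (by simp))

end general

/-- The bound on the potential. -/
theorem potential (z : cc.Vtx) (N : ℕ) : ∀ x : cc.Vtx,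
    ∑ n ∈ Finset.range N, (1024 : ℝ≥0∞) ^ n * nstep cc.P n x z
      ≤ ENNReal.ofReal (16 / (eta (z.1 / 2) * ff z.1) * ff x.1) := by
  classical
  have hη := eta_pos (z.1 / 2)
  have hf := ff_pos z.1
  set B : ℝ := 16 / (eta (z.1 / 2) * ff z.1) with hB
  have hBpos : 0 < B := by positivity
  induction N with
  | zero => intro x; simp
  | succ N ih =>
    intro x
    rw [Finset.sum_range_succ']
    have h1 : ∑ n ∈ Finset.range N, (1024 : ℝ≥0∞) ^ (n + 1) * nstep cc.P (n + 1) x z
        = 1024 * ∑' y, cc.P x y * ∑ n ∈ Finset.range N, (1024 : ℝ≥0∞) ^ n * nstep cc.P n y z := by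
      simp_rw [Finset.mul_sum]
      rw [Summable.tsum_finsetSum (fun i _ => ENNReal.summable), Finset.mul_sum]
      refine Finset.sum_congr rfl fun n _ => ?_
      rw [nstep_succ, ← ENNReal.tsum_mul_left, ← ENNReal.tsum_mul_left]
      refine tsum_congr fun y => ?_
      ring
    rw [h1]
    have h2 : ∑' y, cc.P x y * ∑ n ∈ Finset.range N, (1024 : ℝ≥0∞) ^ n * nstep cc.P n y z
        ≤ ENNReal.ofReal (cc.op (fun y => B * ff y.1) x) := by
      rw [← cc.tsum_P x (fun y => (mul_pos hBpos (ff_pos _)).le)]
      refine ENNReal.tsum_le_tsum fun y => ?_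
      gcongr
      exact ih y
    have h3 : cc.op (fun y => B * ff y.1) x
        = B * (cc.u x.1 * ff (x.1 + 1) + cc.d x.1 * ff (x.1 - 1)) := by
      have havg : ∀ j, cc.avg j (fun y => B * ff y.1) = B * ff j := by
        intro j
        have := cc.s_pos' j
        unfold Cond.avg
        simp only [Finset.sum_const, Finset.card_univ, Fintype.card_fin, nsmul_eq_mul]
        field_simp
      unfold Cond.op
      rw [havg, havg]
      ring
    have h4 : (1024 : ℝ≥0∞) * ∑' y, cc.P x y * ∑ n ∈ Finset.range N,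
        (1024 : ℝ≥0∞) ^ n * nstep cc.P n y z
        ≤ ENNReal.ofReal (B * ((1 - eta (x.1 / 2) / 16) * ff x.1)) := by
      refine (mul_le_mul_right h2 1024).trans ?_
      have : (1024 : ℝ≥0∞) = ENNReal.ofReal 1024 := by simp
      rw [this, ← ENNReal.ofReal_mul (by norm_num), h3]
      apply ENNReal.ofReal_le_ofReal
      have := ff_super x.1
      calc 1024 * (B * (cc.u x.1 * ff (x.1 + 1) + cc.d x.1 * ff (x.1 - 1)))
          = B * (2 ^ 10 * (cc.u x.1 * ff (x.1 + 1) + cc.d x.1 * ff (x.1 - 1))) := by ring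
        _ ≤ B * ((1 - eta (x.1 / 2) / 16) * ff x.1) := by gcongr
    have hηx := eta_pos (x.1 / 2)
    have hηx' := eta_le (x.1 / 2)
    have hfx := ff_pos x.1
    have h5 : (1024 : ℝ≥0∞) ^ 0 * nstep cc.P 0 x z
        ≤ ENNReal.ofReal (B * (eta (x.1 / 2) / 16 * ff x.1)) := by
      simp only [pow_zero, one_mul, nstep, PMF.pure_apply]
      by_cases hxz : z = x
      · subst hxz
        rw [if_pos rfl, hB]
        have : 16 / (eta (z.1 / 2) * ff z.1) * (eta (z.1 / 2) / 16 * ff z.1) = 1 := by
          field_simp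
        rw [this]
        simp
      · rw [if_neg hxz]
        simp
    have h6 : 0 ≤ 1 - eta (x.1 / 2) / 16 := by
      norm_num at hηx'
      linarith
    calc _ ≤ ENNReal.ofReal (B * ((1 - eta (x.1 / 2) / 16) * ff x.1))
        + ENNReal.ofReal (B * (eta (x.1 / 2) / 16 * ff x.1)) := add_le_add h4 h5
      _ = ENNReal.ofReal (B * ff x.1) := by
        rw [← ENNReal.ofReal_add (by positivity) (by positivity)]
        congr 1
        ring

theorem potential_tsum (x z : cc.Vtx) :
    ∑' n, (1024 : ℝ≥0∞) ^ n * nstep cc.P n x z ≠ ⊤ := by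
  have h1 : ∑' n, (1024 : ℝ≥0∞) ^ n * nstep cc.P n x z
      ≤ ENNReal.ofReal (16 / (eta (z.1 / 2) * ff z.1) * ff x.1) := by
    refine ENNReal.tsum_le_of_sum_range_le fun N => potential z N x
  exact ne_top_of_le_ne_top ENNReal.ofReal_ne_top h1

end Pool.Agent.Q171.BW
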